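import Mathlib

/-!
# Jointly nilpotent families of matrices

`wprod C u` is the product of the family `C` along the word `u`.
* `chain`: over a division ring, a jointly nilpotent family of `d × d` matrices has nilpotency
  index at most `d`.
* `nil_or`: over a field, either all words of length `d` vanish, or there is a nonzero `Ξ` with
  `Ξ = ∑ k, C k * Ξ * Z k`.
-/

set_option linter.unusedSectionVars false

namespace TH731.GE

open Matrix

/-- product of a family along a word -/
def wprod {R : Type*} [Monoid R] {n : ℕ} (C : Fin n → R) (u : List (Fin n)) : R :=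
  (u.map C).prod

section wprod

variable {R S : Type*} [Monoid R] [Monoid S] {n : ℕ}

@[simp] theorem wprod_nil (C : Fin n → R) : wprod C [] = 1 := rfl

@[simp] theorem wprod_cons (C : Fin n → R) (k : Fin n) (u : List (Fin n)) :
    wprod C (k :: u) = C k * wprod C u := by
  simp [wprod]

theorem wprod_append (C : Fin n → R) (u v : List (Fin n)) :
    wprod C (u ++ v) = wprod C u * wprod C v := by
  simp [wprod]

theorem map_wprod {F : Type*} [FunLike F R S] [MonoidHomClass F R S] (f : F) (C : Fin n → R)
    (u : List (Fin n)) : f (wprod C u) = wprod (fun k => f (C k)) u := by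
  induction u with
  | nil => simp
  | cons k u ih => simp [ih]

end wprod

section chain

variable {E : Type*} [DivisionRing E] {ι : Type*} [Fintype ι] [DecidableEq ι] {n : ℕ}

/-- the decreasing chain of row spaces -/
noncomputable def W (C : Fin n → Matrix ι ι E) : ℕ → Submodule E (ι → E)
  | 0 => ⊤
  | m + 1 => ⨆ k, (W C m).map (Matrix.vecMulLinear (C k))

theorem W_succ (C : Fin n → Matrix ι ι E) (m : ℕ) :
    W C (m + 1) = ⨆ k, (W C m).map (Matrix.vecMulLinear (C k)) := rfl

theorem W_anti_succ (C : Fin n → Matrix ι ι E) (m : ℕ) : W C (m + 1) ≤ W C m := by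
  induction m with
  | zero => exact le_top
  | succ m ih =>
    rw [W_succ C (m + 1)]
    apply iSup_le
    intro k
    refine le_trans (Submodule.map_mono ih) ?_
    rw [W_succ C m]
    exact le_iSup (fun k => (W C m).map (Matrix.vecMulLinear (C k))) k

theorem W_antitone (C : Fin n → Matrix ι ι E) : Antitone (W C) :=
  antitone_nat_of_succ_le (W_anti_succ C)

theorem W_stable (C : Fin n → Matrix ι ι E) (m : ℕ) (h : W C (m + 1) = W C m) (j : ℕ) :
    W C (m + j) = W C m := by
  induction j with
  | zero => rfl
  | succ j ih =>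
    rw [← add_assoc, W_succ, ih, ← W_succ, h]

theorem mem_W (C : Fin n → Matrix ι ι E) (u : List (Fin n)) :
    ∀ (i : ℕ) (w : ι → E), w ∈ W C i → w ᵥ* wprod C u ∈ W C (i + u.length) := by
  induction u with
  | nil => intro i w hw; simpa using hw
  | cons k u ih =>
    intro i w hw
    have h1 : w ᵥ* C k ∈ W C (i + 1) := by
      rw [W_succ]
      exact Submodule.mem_iSup_of_mem k ⟨w, hw, rfl⟩
    have h2 := ih (i + 1) _ h1
    rw [wprod_cons, ← Matrix.vecMul_vecMul]
    have : i + (k :: u).length = i + 1 + u.length := by simp; ring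
    rw [this]
    exact h2

theorem wprod_eq_zero_of_W (C : Fin n → Matrix ι ι E) {m : ℕ} (h : W C m = ⊥)
    (u : List (Fin n)) (hu : u.length = m) : wprod C u = 0 := by
  ext a b
  have h1 := mem_W C u 0 (Pi.single a 1) trivial
  rw [hu, zero_add, h, Submodule.mem_bot] at h1
  have h2 := congrFun h1 b
  rwa [Matrix.single_one_vecMul] at h2

theorem W_le_span (C : Fin n → Matrix ι ι E) (m : ℕ) :
    W C m ≤ Submodule.span E {x | ∃ (w : ι → E) (u : List (Fin n)), u.length = m ∧
      x = w ᵥ* wprod C u} := by
  induction m with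
  | zero =>
    intro x _
    exact Submodule.subset_span ⟨x, [], rfl, by simp⟩
  | succ m ih =>
    rw [W_succ]
    apply iSup_le
    intro k
    refine le_trans (Submodule.map_mono ih) ?_
    rw [Submodule.map_span]
    apply Submodule.span_mono
    rintro _ ⟨x, ⟨w, u, hu, rfl⟩, rfl⟩
    refine ⟨w, u ++ [k], by simp [hu], ?_⟩
    simp [wprod_append, Matrix.vecMul_vecMul]

theorem W_eq_bot (C : Fin n → Matrix ι ι E) {m : ℕ}
    (h : ∀ u : List (Fin n), u.length = m → wprod C u = 0) : W C m = ⊥ := by
  rw [eq_bot_iff]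
  refine le_trans (W_le_span C m) ?_
  rw [Submodule.span_le]
  rintro _ ⟨w, u, hu, rfl⟩
  simp [h u hu]

theorem W_card (C : Fin n → Matrix ι ι E) :
    W C (Fintype.card ι + 1) = W C (Fintype.card ι) := by
  by_contra hne
  have hall : ∀ m, m ≤ Fintype.card ι → W C (m + 1) ≠ W C m := by
    intro m hm h
    apply hne
    obtain ⟨j, hj⟩ := Nat.exists_eq_add_of_le hm
    rw [hj, add_assoc, W_stable C m h, W_stable C m h]
  have hdim : ∀ m, m ≤ Fintype.card ι + 1 →
      Module.finrank E (W C m) + m ≤ Fintype.card ι := by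
    intro m
    induction m with
    | zero =>
      intro _
      have := Submodule.finrank_le (W C 0)
      simpa using this
    | succ m ih =>
      intro hm
      have h1 := ih (by omega)
      have h2 : W C (m + 1) < W C m := lt_of_le_of_ne (W_anti_succ C m) (hall m (by omega))
      have h3 := Submodule.finrank_lt_finrank_of_lt h2
      omega
  have := hdim (Fintype.card ι + 1) le_rfl
  omega

/-- over a division ring, joint nilpotency implies joint nilpotency of index `d`. -/
theorem chain (C : Fin n → Matrix ι ι E) {m : ℕ}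
    (h : ∀ u : List (Fin n), u.length = m → wprod C u = 0) (u : List (Fin n))
    (hu : u.length = Fintype.card ι) : wprod C u = 0 := by
  have hm := W_eq_bot C h
  apply wprod_eq_zero_of_W C _ u hu
  rw [eq_bot_iff]
  have h1 := W_stable C _ (W_card C) m
  rw [← h1]
  refine le_trans (W_antitone C (Nat.le_add_left m _)) ?_
  rw [hm]

end chain

section nil

variable {F : Type*} [Field F] {ι : Type*} [Fintype ι] [DecidableEq ι] {n : ℕ}

theorem nil_or_row (C : Fin n → Matrix ι ι F) :
    (∀ u : List (Fin n), u.length = Fintype.card ι → wprod C u = 0) ∨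
    ∃ (r : ℕ) (Ω : Matrix (Fin r) ι F) (Z : Fin n → Matrix (Fin r) (Fin r) F),
      Ω ≠ 0 ∧ Ω = ∑ k, Z k * Ω * C k := by
  by_cases hbot : W C (Fintype.card ι) = ⊥
  · left
    intro u hu
    exact wprod_eq_zero_of_W C hbot u hu
  right
  set V := W C (Fintype.card ι) with hV
  have hstab : V = ⨆ k, V.map (Matrix.vecMulLinear (C k)) := by
    rw [hV, ← W_succ, W_card]
  let b := Module.finBasis F V
  let Φ : (Fin n → V) →ₗ[F] (ι → F) :=
    ∑ k, (Matrix.vecMulLinear (C k)).comp (V.subtype.comp (LinearMap.proj k))
  have hΦ : V ≤ LinearMap.range Φ := by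
    intro x hx
    rw [hstab] at hx
    have : (⨆ k, V.map (Matrix.vecMulLinear (C k))) ≤ LinearMap.range Φ := by
      apply iSup_le
      intro k
      rintro _ ⟨w, hw, rfl⟩
      refine ⟨Pi.single k ⟨w, hw⟩, ?_⟩
      simp only [Φ, LinearMap.sum_apply, LinearMap.comp_apply, LinearMap.proj_apply]
      rw [Finset.sum_eq_single k]
      · simp
      · intro j _ hj
        simp [Pi.single_eq_of_ne hj]
      · simp
    exact this hx
  have hch : ∀ i, ∃ w : Fin n → V, (b i : ι → F) = Φ w := by
    intro i
    obtain ⟨w, hw⟩ := hΦ (b i).2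
    exact ⟨w, hw.symm⟩
  choose w hw using hch
  refine ⟨Module.finrank F V, Matrix.of fun i => (b i : ι → F),
    fun k => Matrix.of fun i j => b.repr (w i k) j, ?_, ?_⟩
  · intro h0
    have hpos : 0 < Module.finrank F V := by
      rw [Module.finrank_pos_iff]
      exact (Submodule.nontrivial_iff_ne_bot).2 hbot
    have h1 : (b ⟨0, hpos⟩ : ι → F) = 0 := by
      have := congrFun h0 ⟨0, hpos⟩
      exact this
    exact b.ne_zero ⟨0, hpos⟩ (Subtype.ext h1)
  · ext i a
    rw [Matrix.of_apply, hw i, Matrix.sum_apply]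
    simp only [Φ, LinearMap.sum_apply, LinearMap.comp_apply, LinearMap.proj_apply,
      Finset.sum_apply, Matrix.vecMulLinear_apply, Submodule.subtype_apply]
    refine Finset.sum_congr rfl fun k _ => ?_
    have h2 : ((w i k : V) : ι → F) = ∑ j, b.repr (w i k) j • (b j : ι → F) := by
      have h3 := congrArg (fun x : V => (x : ι → F)) (b.sum_repr (w i k))
      simp only [Submodule.coe_sum, Submodule.coe_smul] at h3
      exact h3.symm
    rw [h2, Matrix.mul_apply]
    simp only [Matrix.vecMul, dotProduct, Finset.sum_apply, Pi.smul_apply, smul_eq_mul,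
      Matrix.mul_apply, Matrix.of_apply]

theorem wprod_transpose (C : Fin n → Matrix ι ι F) (u : List (Fin n)) :
    wprod (fun k => (C k)ᵀ) u = (wprod C u.reverse)ᵀ := by
  induction u with
  | nil => simp
  | cons k u ih => simp [wprod_append, Matrix.transpose_mul, ih]

theorem nil_or (C : Fin n → Matrix ι ι F) :
    (∀ u : List (Fin n), u.length = Fintype.card ι → wprod C u = 0) ∨
    ∃ (r : ℕ) (Ξ : Matrix ι (Fin r) F) (Z : Fin n → Matrix (Fin r) (Fin r) F),
      Ξ ≠ 0 ∧ Ξ = ∑ k, C k * Ξ * Z k := by
  rcases nil_or_row (fun k => (C k)ᵀ) with h | ⟨r, Ω, Z, h0, h1⟩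
  · left
    intro u hu
    have := h u.reverse (by simpa using hu)
    rw [wprod_transpose, List.reverse_reverse] at this
    exact Matrix.transpose_eq_zero.1 this
  · right
    refine ⟨r, Ωᵀ, fun k => (Z k)ᵀ, ?_, ?_⟩
    · intro h
      exact h0 (Matrix.transpose_eq_zero.1 h)
    · conv_lhs => rw [h1]
      rw [Matrix.transpose_sum]
      refine Finset.sum_congr rfl fun k _ => ?_
      simp [Matrix.transpose_mul, Matrix.mul_assoc]

end nil

end TH731.GE
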