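import Pool.Agent.TH731.GE.Chain

/-!
# Cyclic division algebras as matrix rings

`Dsub σ u N`: the ring of `(N+1) × (N+1)` matrices `M` with `Π * M = σ(M) * Π`, `Π` the weighted
cyclic shift.  If `σ` preserves a `ℤ`-valued valuation for which `u` has value `1`, it is a
division ring.
-/

set_option linter.unusedSectionVars false
set_option linter.unusedVariables false

namespace TH731.GE

open Matrix WithZero

section generic

variable {𝓕 : Type*} [Field 𝓕] (σ : 𝓕 →+* 𝓕) (ν : Valuation 𝓕 (WithZero (Multiplicative ℤ)))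
  (u : 𝓕) (N : ℕ)

/-- weights of the cyclic shift -/
def pw (k : Fin (N + 1)) : 𝓕 := if k = Fin.last N then u else 1

/-- the weighted cyclic shift -/
def Pm : Matrix (Fin (N + 1)) (Fin (N + 1)) 𝓕 :=
  Matrix.of fun k l => if l = k + 1 then pw u N k else 0

theorem Pm_mul_apply (M : Matrix (Fin (N + 1)) (Fin (N + 1)) 𝓕) (k l : Fin (N + 1)) :
    (Pm u N * M) k l = pw u N k * M (k + 1) l := by
  rw [Matrix.mul_apply, Finset.sum_eq_single (k + 1)]
  · simp [Pm]
  · intro b _ hb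
    simp [Pm, hb]
  · simp

theorem mul_Pm_apply (M : Matrix (Fin (N + 1)) (Fin (N + 1)) 𝓕) (k l : Fin (N + 1)) :
    (M * Pm u N) k (l + 1) = M k l * pw u N l := by
  rw [Matrix.mul_apply, Finset.sum_eq_single l]
  · simp [Pm]
  · intro b _ hb
    have : ¬ l + 1 = b + 1 := fun h => hb (add_right_cancel h).symm
    simp [Pm, this]
  · simp

/-- the ring of matrices commuting (σ-twisted) with the cyclic shift -/
def Dsub (hu : σ u = u) : Subring (Matrix (Fin (N + 1)) (Fin (N + 1)) 𝓕) where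
  carrier := {M | Pm u N * M = M.map σ * Pm u N}
  mul_mem' := by
    intro a b ha hb
    simp only [Set.mem_ofPred_eq] at *
    rw [← Matrix.mul_assoc, ha, Matrix.mul_assoc, hb, ← Matrix.mul_assoc, Matrix.map_mul]
  one_mem' := by
    simp only [Set.mem_ofPred_eq]
    rw [Matrix.map_one σ (map_zero σ) (map_one σ), mul_one, one_mul]
  add_mem' := by
    intro a b ha hb
    simp only [Set.mem_ofPred_eq] at *
    rw [Matrix.mul_add, ha, hb, Matrix.map_add σ (map_add σ), Matrix.add_mul]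
  zero_mem' := by
    simp only [Set.mem_ofPred_eq]
    rw [Matrix.map_zero σ (map_zero σ), Matrix.mul_zero, Matrix.zero_mul]
  neg_mem' := by
    intro a ha
    simp only [Set.mem_ofPred_eq] at *
    rw [Matrix.mul_neg, ha]
    ext k l
    simp [Matrix.mul_apply]

variable {σ u N}

theorem mem_Dsub (hu : σ u = u) {M : Matrix (Fin (N + 1)) (Fin (N + 1)) 𝓕} :
    M ∈ Dsub σ u N hu ↔ ∀ k l, pw u N k * M (k + 1) (l + 1) = σ (M k l) * pw u N l := by
  constructor
  · intro h k l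
    have h1 : Pm u N * M = M.map σ * Pm u N := h
    have h2 := congrFun (congrFun h1 k) (l + 1)
    rwa [Pm_mul_apply, mul_Pm_apply, Matrix.map_apply] at h2
  · intro h
    change Pm u N * M = M.map σ * Pm u N
    ext k l
    obtain ⟨l', rfl⟩ : ∃ l', l = l' + 1 := ⟨l - 1, by simp⟩
    rw [Pm_mul_apply, mul_Pm_apply, Matrix.map_apply]
    exact h k l'

theorem pw_ne_zero (hu0 : u ≠ 0) (k : Fin (N + 1)) : pw u N k ≠ 0 := by
  unfold pw
  split_ifs
  · exact hu0
  · exact one_ne_zero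

theorem log_mul' {x y : 𝓕} (hx : x ≠ 0) (hy : y ≠ 0) :
    log (ν (x * y)) = log (ν x) + log (ν y) := by
  rw [map_mul, log_mul ((Valuation.ne_zero_iff ν).2 hx) ((Valuation.ne_zero_iff ν).2 hy)]

theorem pw_weight (hν : ν u = exp 1) (k : Fin (N + 1)) :
    ((N : ℤ) + 1) * log (ν (pw u N k)) = 1 + (k : ℕ) - ((k + 1 : Fin (N + 1)) : ℕ) := by
  unfold pw
  by_cases hk : k = Fin.last N
  · subst hk
    rw [if_pos rfl, hν, log_exp, Fin.val_add_one]
    simp
    ring
  · rw [if_neg hk, map_one, log_one, Fin.val_add_one, if_neg hk]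
    push_cast
    ring

/-- the graded degree of the entry `(k,l)` -/
noncomputable def qd (M : Matrix (Fin (N + 1)) (Fin (N + 1)) 𝓕) (k l : Fin (N + 1)) : ℤ :=
  ((N : ℤ) + 1) * log (ν (M k l)) + (l : ℕ) - (k : ℕ)

theorem qd_step (hu : σ u = u) (hν : ν u = exp 1) (hσ : ∀ x, ν (σ x) = ν x)
    {M : Matrix (Fin (N + 1)) (Fin (N + 1)) 𝓕} (hM : M ∈ Dsub σ u N hu) (k l : Fin (N + 1))
    (hkl : M k l ≠ 0) :
    M (k + 1) (l + 1) ≠ 0 ∧ qd ν M (k + 1) (l + 1) = qd ν M k l := by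
  have hu0 : u ≠ 0 := by
    intro h
    rw [h, map_zero] at hν
    exact exp_ne_zero hν.symm
  have h1 := (mem_Dsub hu).1 hM k l
  have hs : σ (M k l) ≠ 0 := (map_ne_zero σ).2 hkl
  have hne : M (k + 1) (l + 1) ≠ 0 := by
    intro h
    rw [h, mul_zero] at h1
    exact mul_ne_zero hs (pw_ne_zero hu0 l) h1.symm
  refine ⟨hne, ?_⟩
  have h2 : log (ν (pw u N k * M (k + 1) (l + 1))) = log (ν (σ (M k l) * pw u N l)) := by
    rw [h1]
  rw [log_mul' ν (pw_ne_zero hu0 k) hne, log_mul' ν hs (pw_ne_zero hu0 l), hσ] at h2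
  have h3 := pw_weight ν hν k
  have h4 := pw_weight ν hν l
  unfold qd
  linear_combination ((N : ℤ) + 1) * h2 - h3 + h4

theorem qd_shift (hu : σ u = u) (hν : ν u = exp 1) (hσ : ∀ x, ν (σ x) = ν x)
    {M : Matrix (Fin (N + 1)) (Fin (N + 1)) 𝓕} (hM : M ∈ Dsub σ u N hu) (k l : Fin (N + 1))
    (hkl : M k l ≠ 0) (t : Fin (N + 1)) :
    M (k + t) (l + t) ≠ 0 ∧ qd ν M (k + t) (l + t) = qd ν M k l := by
  induction t using Fin.induction with
  | zero => simpa using hkl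
  | succ t ih =>
    have h := qd_step ν hu hν hσ hM _ _ ih.1
    rw [← Fin.coeSucc_eq_succ, ← add_assoc, ← add_assoc]
    exact ⟨h.1, h.2.trans ih.2⟩

theorem injective_of_mem (hu : σ u = u) (hν : ν u = exp 1) (hσ : ∀ x, ν (σ x) = ν x)
    {M : Matrix (Fin (N + 1)) (Fin (N + 1)) 𝓕} (hM : M ∈ Dsub σ u N hu) (hM0 : M ≠ 0)
    {v : Fin (N + 1) → 𝓕} (hv : v ≠ 0) : M *ᵥ v ≠ 0 := by
  classical
  -- maximal entry of `v`
  obtain ⟨i0, hi0⟩ := Function.ne_iff.1 hv
  obtain ⟨l0, hl0, hmaxv⟩ := Finset.exists_max_image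
    (Finset.univ.filter fun l => v l ≠ 0)
    (fun l : Fin (N + 1) => ((N : ℤ) + 1) * log (ν (v l)) - (l : ℕ))
    ⟨i0, by simpa using hi0⟩
  rw [Finset.mem_filter] at hl0
  -- maximal entry of `M`
  obtain ⟨a, b, hab⟩ : ∃ a b, M a b ≠ 0 := by
    by_contra hcon
    push Not at hcon
    exact hM0 (by ext a b; exact hcon a b)
  obtain ⟨⟨k1, l1⟩, hkl1, hmaxM⟩ := Finset.exists_max_image
    ((Finset.univ : Finset (Fin (N + 1) × Fin (N + 1))).filter fun x => M x.1 x.2 ≠ 0)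
    (fun x => qd ν M x.1 x.2) ⟨(a, b), by simpa using hab⟩
  rw [Finset.mem_filter] at hkl1
  obtain ⟨hne, hq⟩ := qd_shift ν hu hν hσ hM k1 l1 hkl1.2 (l0 - l1)
  have hl : l1 + (l0 - l1) = l0 := by abel
  rw [hl] at hne hq
  set k0 := k1 + (l0 - l1) with hk0
  have hmain : M k0 l0 * v l0 ≠ 0 := mul_ne_zero hne hl0.2
  have hlt : ∀ l ∈ Finset.univ.erase l0, ν (M k0 l * v l) < ν (M k0 l0 * v l0) := by
    intro l hl'
    have hll : l ≠ l0 := (Finset.mem_erase.1 hl').1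
    by_cases hz : M k0 l * v l = 0
    · rw [hz, map_zero]
      exact zero_lt_iff.2 ((Valuation.ne_zero_iff ν).2 hmain)
    have hz1 : M k0 l ≠ 0 := left_ne_zero_of_mul hz
    have hz2 : v l ≠ 0 := right_ne_zero_of_mul hz
    rw [← log_lt_log ((Valuation.ne_zero_iff ν).2 hz) ((Valuation.ne_zero_iff ν).2 hmain),
      log_mul' ν hz1 hz2, log_mul' ν hne hl0.2]
    have h1 := hmaxM (k0, l) (by simpa using hz1)
    have h2 := hmaxv l (by simpa using hz2)
    simp only at h1 h2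
    rw [← hq] at h1
    unfold qd at h1
    have h3 : ((N : ℤ) + 1) * log (ν (M k0 l)) + (l : ℕ) - (k0 : ℕ) ≠
        ((N : ℤ) + 1) * log (ν (M k0 l0)) + (l0 : ℕ) - (k0 : ℕ) := by
      intro h
      have h4 : ((N : ℤ) + 1) * (log (ν (M k0 l)) - log (ν (M k0 l0))) =
          (l0 : ℕ) - (l : ℕ) := by linear_combination h
      have h5 : ((N : ℤ) + 1) ∣ ((l0 : ℕ) : ℤ) - (l : ℕ) := ⟨_, h4.symm⟩
      have h6 : ((l0 : ℕ) : ℤ) - (l : ℕ) = 0 := by
        apply Int.eq_zero_of_abs_lt_dvd h5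
        have := l0.2
        have := l.2
        rw [abs_lt]
        constructor <;> omega
      apply hll
      apply Fin.ext
      omega
    have h7 := lt_of_le_of_ne h1 h3
    have hN : (0 : ℤ) < (N : ℤ) + 1 := by positivity
    have h8 : ((N : ℤ) + 1) * (log (ν (M k0 l)) + log (ν (v l))) <
        ((N : ℤ) + 1) * (log (ν (M k0 l0)) + log (ν (v l0))) := by
      linarith
    exact lt_of_mul_lt_mul_left h8 hN.le
  intro hzero
  have h1 := congrFun hzero k0
  rw [Matrix.mulVec, dotProduct, ← Finset.add_sum_erase _ _ (Finset.mem_univ l0)] at h1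
  have h2 : ν (∑ l ∈ Finset.univ.erase l0, M k0 l * v l) < ν (M k0 l0 * v l0) :=
    Valuation.map_sum_lt ν ((Valuation.ne_zero_iff ν).2 hmain) hlt
  have h3 := Valuation.map_add_eq_of_lt_left ν h2
  rw [h1] at h3
  simp only [Pi.zero_apply, map_zero] at h3
  exact (Valuation.ne_zero_iff ν).2 hmain h3.symm

theorem isUnit_of_mem (hu : σ u = u) (hν : ν u = exp 1) (hσ : ∀ x, ν (σ x) = ν x)
    (M : Dsub σ u N hu) : IsUnit M ∨ M = 0 := by
  by_cases h0 : M = 0
  · exact Or.inr h0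
  left
  have hM0 : (M : Matrix (Fin (N + 1)) (Fin (N + 1)) 𝓕) ≠ 0 := fun h => h0 (Subtype.ext h)
  have hdet : (M : Matrix (Fin (N + 1)) (Fin (N + 1)) 𝓕).det ≠ 0 := by
    intro h
    obtain ⟨v, hv, hv0⟩ := Matrix.exists_mulVec_eq_zero_iff.2 h
    exact injective_of_mem ν hu hν hσ M.2 hM0 hv hv0
  have hunit : IsUnit (M : Matrix (Fin (N + 1)) (Fin (N + 1)) 𝓕).det := isUnit_iff_ne_zero.2 hdet
  set A : Matrix (Fin (N + 1)) (Fin (N + 1)) 𝓕 := M.1 with hA
  have hinv1 := Matrix.mul_nonsing_inv A hunit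
  have hinv2 := Matrix.nonsing_inv_mul A hunit
  have hMm : Pm u N * A = A.map σ * Pm u N := M.2
  have hmem : A⁻¹ ∈ Dsub σ u N hu := by
    change Pm u N * A⁻¹ = (A⁻¹).map σ * Pm u N
    have h1 : (A⁻¹).map σ * A.map σ = 1 := by
      rw [← Matrix.map_mul, hinv2, Matrix.map_one σ (map_zero σ) (map_one σ)]
    calc Pm u N * A⁻¹ = ((A⁻¹).map σ * A.map σ) * Pm u N * A⁻¹ := by rw [h1, one_mul]
      _ = (A⁻¹).map σ * (Pm u N * A) * A⁻¹ := by rw [hMm]; simp only [Matrix.mul_assoc]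
      _ = (A⁻¹).map σ * Pm u N * (A * A⁻¹) := by simp only [Matrix.mul_assoc]
      _ = (A⁻¹).map σ * Pm u N := by rw [hinv1, mul_one]
  exact IsUnit.of_mul_eq_one (⟨A⁻¹, hmem⟩ : Dsub σ u N hu) (Subtype.ext hinv1)

end generic

end TH731.GE
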