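import Pool.Agent.TH731.GE.Chain

/-!
# Words in the free algebra
-/

namespace TH731.GE

open FreeAlgebra

/-- the free associative algebra `K⟨x₁,…,xₙ⟩` -/
abbrev FA (K : Type*) [CommSemiring K] (n : ℕ) := FreeAlgebra K (Fin n)

section

variable {K : Type*} [CommRing K] {n : ℕ}

/-- the monomial of a word -/
noncomputable def xw (w : List (Fin n)) : FA K n := wprod (fun i => ι K i) w

@[simp] theorem xw_nil : (xw [] : FA K n) = 1 := rfl

@[simp] theorem xw_cons (k : Fin n) (w : List (Fin n)) : (xw (k :: w) : FA K n) = ι K k * xw w :=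
  wprod_cons _ _ _

theorem xw_append (v w : List (Fin n)) : (xw (v ++ w) : FA K n) = xw v * xw w :=
  wprod_append _ _ _

theorem span_xw : Submodule.span K (Set.range (xw : List (Fin n) → FA K n)) = ⊤ := by
  rw [eq_top_iff]
  rintro a -
  induction a using FreeAlgebra.induction with
  | grade0 r =>
    have : (algebraMap K (FA K n) r) = r • xw [] := by
      rw [xw_nil, Algebra.algebraMap_eq_smul_one]
    rw [this]
    exact Submodule.smul_mem _ _ (Submodule.subset_span ⟨_, rfl⟩)
  | grade1 x => exact Submodule.subset_span ⟨[x], by simp⟩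
  | mul a b ha hb =>
    have h := Submodule.mul_mem_mul ha hb
    rw [Submodule.span_mul_span] at h
    refine Submodule.span_mono ?_ h
    rintro _ ⟨_, ⟨v, rfl⟩, _, ⟨w, rfl⟩, rfl⟩
    exact ⟨v ++ w, xw_append v w⟩
  | add a b ha hb => exact Submodule.add_mem _ ha hb

theorem exists_coeff (a : FA K n) :
    ∃ c : List (Fin n) →₀ K, a = c.sum fun w r => r • xw w := by
  have h : a ∈ Submodule.span K (Set.range (xw : List (Fin n) → FA K n)) := by
    rw [span_xw]
    trivial
  obtain ⟨c, hc⟩ := (Finsupp.mem_span_range_iff_exists_finsupp).1 h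
  exact ⟨c, hc.symm⟩

theorem map_xw {A : Type*} [Ring A] [Algebra K A] (φ : FA K n →ₐ[K] A) (w : List (Fin n)) :
    φ (xw w) = wprod (fun i => φ (ι K i)) w := by
  rw [xw, map_wprod]

end

end TH731.GE
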