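import Pool.Agent.TH731.GE.Div
import Pool.Agent.TH731.GE.Words

/-!
# The free algebra in cyclic division algebras
-/

set_option linter.unusedSectionVars false

namespace TH731.GE

open Matrix WithZero FreeAlgebra

universe v

variable (K : Type v) [Field K] (n N : ℕ)

/-- polynomial ring in the variables `(j,k)` -/
abbrev Lam := MvPolynomial (Fin n × Fin (N + 1)) K

/-- its fraction field -/
abbrev LF := FractionRing (Lam K n N)

/-- rational functions in one more variable -/
abbrev FF := RatFunc (LF K n N)

/-- the cyclic shift on the polynomial ring -/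
noncomputable def sL : Lam K n N ≃+* Lam K n N :=
  (MvPolynomial.renameEquiv K
    (Equiv.prodCongr (Equiv.refl (Fin n)) (Equiv.addRight (1 : Fin (N + 1))))).toRingEquiv

/-- the cyclic shift on the fraction field -/
noncomputable def sLF : LF K n N ≃+* LF K n N :=
  IsFractionRing.ringEquivOfRingEquiv (sL K n N)

/-- the cyclic shift on `FF` -/
noncomputable def sFF : FF K n N ≃+* FF K n N :=
  IsFractionRing.ringEquivOfRingEquiv (A := Polynomial (LF K n N)) (B := Polynomial (LF K n N))
    (Polynomial.mapEquiv (sLF K n N))

/-- the embedding of the polynomial ring -/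
noncomputable def emb : Lam K n N →+* FF K n N :=
  (algebraMap (Polynomial (LF K n N)) (FF K n N)).comp
    (Polynomial.C.comp (algebraMap (Lam K n N) (LF K n N)))

theorem emb_injective : Function.Injective (emb K n N) := by
  unfold emb
  simp only [RingHom.coe_comp]
  exact (IsFractionRing.injective _ _).comp
    (Polynomial.C_injective.comp (IsFractionRing.injective _ _))

theorem sFF_algebraMap (p : Polynomial (LF K n N)) :
    sFF K n N (algebraMap _ _ p) = algebraMap _ _ (p.map (sLF K n N : LF K n N →+* LF K n N)) := by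
  unfold sFF
  rw [IsFractionRing.ringEquivOfRingEquiv_algebraMap]
  rfl

theorem sFF_emb (p : Lam K n N) : sFF K n N (emb K n N p) = emb K n N (sL K n N p) := by
  unfold emb
  simp only [RingHom.coe_comp, Function.comp_apply]
  rw [sFF_algebraMap, Polynomial.map_C]
  unfold sLF
  congr 2
  exact IsFractionRing.ringEquivOfRingEquiv_algebraMap _ _

theorem sFF_X : sFF K n N RatFunc.X = RatFunc.X := by
  rw [← RatFunc.algebraMap_X, sFF_algebraMap, Polynomial.map_X]

theorem sL_C (r : K) : sL K n N (MvPolynomial.C r) = MvPolynomial.C r := by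
  unfold sL
  exact MvPolynomial.rename_C _ _

theorem sL_X (j : Fin n) (k : Fin (N + 1)) :
    sL K n N (MvPolynomial.X (j, k)) = MvPolynomial.X (j, k + 1) := by
  unfold sL
  exact MvPolynomial.rename_X _ _

theorem algebraMap_emb (r : K) : algebraMap K (FF K n N) r = emb K n N (MvPolynomial.C r) := by
  unfold emb
  rw [IsScalarTower.algebraMap_apply K (Polynomial (LF K n N)) (FF K n N)]
  simp only [RingHom.coe_comp, Function.comp_apply]
  congr 1

theorem sFF_algebraMap' (r : K) :
    sFF K n N (algebraMap K (FF K n N) r) = algebraMap K (FF K n N) r := by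
  rw [algebraMap_emb, sFF_emb, sL_C]

open Classical in
/-- the valuation at infinity -/
noncomputable def nu : Valuation (FF K n N) (WithZero (Multiplicative ℤ)) :=
  RatFunc.inftyValuation (LF K n N)

theorem nu_X : nu K n N RatFunc.X = exp 1 := by
  classical
  unfold nu
  exact RatFunc.inftyValuation.X _

theorem nu_algebraMap (p : Polynomial (LF K n N)) (hp : p ≠ 0) :
    nu K n N (algebraMap _ _ p) = exp (p.natDegree : ℤ) := by
  classical
  unfold nu
  rw [RatFunc.inftyValuation_apply]
  exact RatFunc.inftyValuation.polynomial _ hp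

theorem nu_sFF (x : FF K n N) : nu K n N (sFF K n N x) = nu K n N x := by
  have key : ∀ p : Polynomial (LF K n N), nu K n N (sFF K n N (algebraMap _ _ p)) =
      nu K n N (algebraMap _ _ p) := by
    intro p
    by_cases hp : p = 0
    · simp [hp]
    · rw [sFF_algebraMap, nu_algebraMap, nu_algebraMap _ _ _ _ hp,
        Polynomial.natDegree_map_eq_of_injective]
      · exact (sLF K n N).injective
      · rwa [Ne, Polynomial.map_eq_zero_iff]
        exact (sLF K n N).injective
  obtain ⟨p, q, hq, rfl⟩ := IsFractionRing.div_surjective (A := Polynomial (LF K n N)) x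
  rw [map_div₀, map_div₀, map_div₀, key, key]

/-- the image of the variable `(j,k)` -/
noncomputable def xi (j : Fin n) (k : Fin (N + 1)) : FF K n N :=
  emb K n N (MvPolynomial.X (j, k))

theorem sFF_xi (j : Fin n) (k : Fin (N + 1)) : sFF K n N (xi K n N j k) = xi K n N j (k + 1) := by
  rw [xi, sFF_emb, sL_X, xi]

/-- the weighted cyclic shifts -/
noncomputable def Tm (j : Fin n) : Matrix (Fin (N + 1)) (Fin (N + 1)) (FF K n N) :=
  Matrix.of fun k l => if l = k + 1 then xi K n N j k * pw RatFunc.X N k else 0

/-- the cyclic shift as a ring homomorphism -/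
noncomputable def sF : FF K n N →+* FF K n N := (sFF K n N).toRingHom

theorem sF_apply (x : FF K n N) : sF K n N x = sFF K n N x := rfl

theorem sF_X : sF K n N RatFunc.X = RatFunc.X := by
  rw [sF_apply, sFF_X]

/-- the division ring -/
noncomputable def DD : Subring (Matrix (Fin (N + 1)) (Fin (N + 1)) (FF K n N)) :=
  Dsub (sF K n N) RatFunc.X N (sF_X K n N)

theorem mem_DD {M : Matrix (Fin (N + 1)) (Fin (N + 1)) (FF K n N)} :
    M ∈ DD K n N ↔ ∀ k l, pw RatFunc.X N k * M (k + 1) (l + 1) =
      sF K n N (M k l) * pw RatFunc.X N l :=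
  mem_Dsub (sF_X K n N)

theorem Tm_mem (j : Fin n) : Tm K n N j ∈ DD K n N := by
  rw [mem_DD]
  intro k l
  by_cases h : l = k + 1
  · subst h
    simp only [Tm, Matrix.of_apply, if_true]
    have : sF K n N (xi K n N j k * pw RatFunc.X N k) =
        xi K n N j (k + 1) * pw RatFunc.X N k := by
      rw [map_mul]
      congr 1
      · exact sFF_xi K n N j k
      · unfold pw
        split_ifs
        · exact sFF_X K n N
        · exact map_one _
    rw [this]
    ring
  · have h' : ¬ l + 1 = k + 1 + 1 := fun h2 => h (add_right_cancel h2)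
    simp [Tm, h]

/-- the representation of the free algebra -/
noncomputable def th : FA K n →ₐ[K] Matrix (Fin (N + 1)) (Fin (N + 1)) (FF K n N) :=
  FreeAlgebra.lift K (Tm K n N)

theorem th_ι (j : Fin n) : th K n N (ι K j) = Tm K n N j := by
  simp [th]

theorem th_mem (a : FA K n) : th K n N a ∈ DD K n N := by
  induction a using FreeAlgebra.induction with
  | grade0 r =>
    rw [AlgHom.commutes, mem_DD]
    intro k l
    rw [Matrix.algebraMap_matrix_apply, Matrix.algebraMap_matrix_apply]
    by_cases h : k = l
    · subst h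
      simp only [if_true]
      rw [sF_apply, sFF_algebraMap' K n N r]
      ring
    · have h' : ¬ k + 1 = l + 1 := fun h2 => h (add_right_cancel h2)
      simp [h]
  | grade1 j => rw [th_ι]; exact Tm_mem K n N j
  | mul a b ha hb => rw [map_mul]; exact Subring.mul_mem _ ha hb
  | add a b ha hb => rw [map_add]; exact Subring.add_mem _ ha hb

/-- the end point of a path -/
def sh : Fin (N + 1) → List (Fin n) → Fin (N + 1)
  | k, [] => k
  | k, _ :: w => sh (k + 1) w

/-- the monomial of a path -/
noncomputable def mo : Fin (N + 1) → List (Fin n) → FF K n N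
  | _, [] => 1
  | k, j :: w => xi K n N j k * pw RatFunc.X N k * mo (k + 1) w

/-- the polynomial monomial of a path -/
noncomputable def mp : Fin (N + 1) → List (Fin n) → Lam K n N
  | _, [] => 1
  | k, j :: w => MvPolynomial.X (j, k) * mp (k + 1) w

theorem th_xw (w : List (Fin n)) : ∀ k l, th K n N (xw w) k l =
    if l = sh n N k w then mo K n N k w else 0 := by
  induction w with
  | nil =>
    intro k l
    simp only [xw_nil, map_one, sh, mo, Matrix.one_apply, eq_comm]
  | cons j w ih =>
    intro k l
    rw [xw_cons, map_mul, th_ι, Matrix.mul_apply, Finset.sum_eq_single (k + 1)]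
    · rw [ih, show sh n N k (j :: w) = sh n N (k + 1) w from rfl,
        show mo K n N k (j :: w) = xi K n N j k * pw RatFunc.X N k * mo K n N (k + 1) w from rfl]
      by_cases h : l = sh n N (k + 1) w
      · rw [if_pos h, if_pos h, Tm, Matrix.of_apply, if_pos rfl]
      · rw [if_neg h, if_neg h, mul_zero]
    · intro b _ hb
      simp [Tm, hb]
    · simp

theorem val_succ_of_lt {k : Fin (N + 1)} (h : (k : ℕ) < N) : ((k + 1 : Fin (N + 1)) : ℕ) = k + 1 := by
  rw [Fin.val_add_one, if_neg]
  intro h2
  rw [h2] at h
  simp at h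

theorem sh_val (w : List (Fin n)) : ∀ k : Fin (N + 1), (k : ℕ) + w.length ≤ N →
    ((sh n N k w : Fin (N + 1)) : ℕ) = k + w.length := by
  induction w with
  | nil => intro k _; simp [sh]
  | cons j w ih =>
    intro k hk
    simp only [List.length_cons] at hk
    have h1 : (k : ℕ) < N := by omega
    rw [sh, ih (k + 1) (by rw [val_succ_of_lt N h1]; omega), val_succ_of_lt N h1]
    simp only [List.length_cons]
    omega

theorem mo_eq (w : List (Fin n)) : ∀ k : Fin (N + 1), (k : ℕ) + w.length ≤ N →
    mo K n N k w = emb K n N (mp K n N k w) := by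
  induction w with
  | nil => intro k _; simp [mo, mp]
  | cons j w ih =>
    intro k hk
    simp only [List.length_cons] at hk
    have h1 : (k : ℕ) < N := by omega
    have h2 : k ≠ Fin.last N := by
      intro h
      rw [h] at h1
      simp at h1
    rw [mo, mp, ih (k + 1) (by rw [val_succ_of_lt N h1]; omega), map_mul, pw, if_neg h2, mul_one, xi]

theorem eval_mp (w0 : List (Fin n)) (hw0 : w0.length ≤ N) (w : List (Fin n)) :
    ∀ k : Fin (N + 1), (k : ℕ) + w.length = w0.length →
    MvPolynomial.eval (fun x : Fin n × Fin (N + 1) => if w0[(x.2 : ℕ)]? = some x.1 then (1 : K) else 0)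
      (mp K n N k w) = if w0.drop k = w then 1 else 0 := by
  induction w with
  | nil =>
    intro k hk
    simp only [List.length_nil, add_zero] at hk
    simp [mp, hk]
  | cons j w ih =>
    intro k hk
    simp only [List.length_cons] at hk
    have h1 : (k : ℕ) < N := by omega
    have h3 : (k : ℕ) < w0.length := by omega
    rw [mp, map_mul, ih (k + 1) (by rw [val_succ_of_lt N h1]; omega), MvPolynomial.eval_X,
      val_succ_of_lt N h1]
    rw [List.drop_eq_getElem_cons h3]
    simp only [List.getElem?_eq_getElem h3, Option.some.injEq, List.cons.injEq]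
    by_cases ha : w0[(k : ℕ)] = j <;> by_cases hb : List.drop ((k : ℕ) + 1) w0 = w <;>
      simp [ha, hb]

theorem coeff_zero_of_th (c : List (Fin n) →₀ K) (hN : ∀ w ∈ c.support, w.length ≤ N)
    (h : th K n N (c.sum fun w r => r • xw w) = 0) : c = 0 := by
  by_contra hc
  obtain ⟨w0, hw0⟩ := Finsupp.support_nonempty_iff.2 hc
  have hl0 := hN w0 hw0
  have h1 := congrFun (congrFun h 0) (sh n N 0 w0)
  rw [Finsupp.sum, map_sum, Matrix.sum_apply] at h1
  have h2 : ∀ w ∈ c.support, th K n N (c w • xw w) 0 (sh n N 0 w0) =
      emb K n N (if w.length = w0.length then MvPolynomial.C (c w) * mp K n N 0 w else 0) := by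
    intro w hw
    rw [map_smul, Matrix.smul_apply, th_xw, Algebra.smul_def, algebraMap_emb]
    have hlw := hN w hw
    have h3 := sh_val n N w 0 (by simpa using hlw)
    have h4 := sh_val n N w0 0 (by simpa using hl0)
    by_cases hlen : w.length = w0.length
    · have h5 : sh n N 0 w0 = sh n N 0 w := by
        apply Fin.ext
        rw [h3, h4, hlen]
      rw [if_pos h5, if_pos hlen, mo_eq K n N w 0 (by simpa using hlw), map_mul]
    · have h5 : ¬ sh n N 0 w0 = sh n N 0 w := by
        intro h6
        apply hlen
        have h7 := congrArg (fun x : Fin (N + 1) => (x : ℕ)) h6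
        simp only [h3, h4] at h7
        omega
      rw [if_neg h5, if_neg hlen, mul_zero, map_zero]
  rw [Finset.sum_congr rfl h2, ← map_sum] at h1
  have h3 := (map_eq_zero_iff _ (emb_injective K n N)).1 h1
  have h4 := congrArg (MvPolynomial.eval
    (fun x : Fin n × Fin (N + 1) => if w0[(x.2 : ℕ)]? = some x.1 then (1 : K) else 0)) h3
  rw [map_sum, map_zero, Finset.sum_eq_single w0] at h4
  · rw [if_pos rfl, map_mul, MvPolynomial.eval_C, eval_mp K n N w0 hl0 w0 0 (by simp)] at h4
    simp only [Fin.val_zero, List.drop_zero, if_true, mul_one] at h4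
    exact Finsupp.mem_support_iff.1 hw0 h4
  · intro w hw hne
    split_ifs with hlen
    · rw [map_mul, eval_mp K n N w0 hl0 w 0 (by simpa using hlen)]
      simp [hne.symm]
    · simp
  · intro h5
    exact absurd hw0 h5

variable {K n}

/-- For finitely many elements of the free algebra there is a finite-dimensional representation
with values in a division ring, in which the nonzero ones among them stay nonzero. -/
theorem exists_div (S : Finset (FA K n)) :
    ∃ (N : ℕ) (𝓕 : Type v) (_ : Field 𝓕) (_ : Algebra K 𝓕) (D : Type v) (_ : DivisionRing D)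
      (j : D →+* Matrix (Fin N) (Fin N) 𝓕) (θ : FA K n →ₐ[K] Matrix (Fin N) (Fin N) 𝓕)
      (θD : FA K n →+* D), Function.Injective j ∧ (∀ a, j (θD a) = θ a) ∧
      ∀ e ∈ S, θ e = 0 → e = 0 := by
  classical
  choose c hc using (exists_coeff : ∀ a : FA K n, _)
  let N : ℕ := S.sup fun e => (c e).support.sup List.length
  have hN : ∀ e ∈ S, ∀ w ∈ (c e).support, w.length ≤ N := by
    intro e he w hw
    refine le_trans ?_ (Finset.le_sup (f := fun e => (c e).support.sup List.length) he)
    exact Finset.le_sup (f := List.length) hw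
  have hdiv : ∀ a : DD K n N, IsUnit a ∨ a = 0 :=
    isUnit_of_mem (nu K n N) (sF_X K n N) (nu_X K n N) (nu_sFF K n N)
  let : DivisionRing (DD K n N) := DivisionRing.ofIsUnitOrEqZero hdiv
  refine ⟨N + 1, FF K n N, inferInstance, inferInstance, DD K n N, inferInstance,
    (DD K n N).subtype, th K n N, (th K n N : FA K n →+* _).codRestrict (DD K n N) (th_mem K n N),
    Subtype.val_injective, fun a => rfl, ?_⟩
  intro e he h
  have h1 := coeff_zero_of_th K n N (c e) (hN e he) (by rw [← hc e]; exact h)
  rw [hc e, h1]
  simp

end TH731.GE
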