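import Pool.Agent.TH731.GE.Surj

/-!
# Limits of automorphisms are étale
-/

set_option linter.unusedSectionVars false

namespace TH731.GE

open Matrix FreeAlgebra

universe v

section comm

variable {K : Type*} [Field K] {n : ℕ} {R R' : Type*} [CommRing R] [Algebra K R] [CommRing R']
  [Algebra K R'] {p q : ℕ}

theorem dd_map (φ : R →ₐ[K] R') (X : Fin n → Matrix (Fin p) (Fin p) R)
    (Y : Fin n → Matrix (Fin q) (Fin q) R) (δ : Fin n → Matrix (Fin p) (Fin q) R) (a : FA K n) :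
    (dd X Y δ a).map φ = dd (fun k => (X k).map φ) (fun k => (Y k).map φ)
      (fun k => (δ k).map φ) a := by
  have h : (φ.mapMatrix).comp (evB (K := K) X Y δ) =
      evB (K := K) (fun k => (X k).map φ) (fun k => (Y k).map φ) (fun k => (δ k).map φ) := by
    apply FreeAlgebra.hom_ext
    funext k
    simp [evB, Matrix.fromBlocks_map]
  have h2 := congrArg (fun ψ : FA K n →ₐ[K] _ => (ψ a).toBlocks₁₂) h
  unfold dd
  rw [← h2]
  rfl

/-- directions as vectors -/
def vecd (v : Fin n × Fin p × Fin q → R) : Fin n → Matrix (Fin p) (Fin q) R :=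
  fun k => Matrix.of fun a b => v (k, a, b)

/-- the differential of a family as a linear map -/
noncomputable def TT (X : Fin n → Matrix (Fin p) (Fin p) R) (Y : Fin n → Matrix (Fin q) (Fin q) R)
    (g : Fin n → FA K n) : (Fin n × Fin p × Fin q → R) →ₗ[R] (Fin n × Fin p × Fin q → R) where
  toFun v x := dd X Y (vecd v) (g x.1) x.2.1 x.2.2
  map_add' v w := by
    funext x
    have : (vecd (v + w) : Fin n → Matrix (Fin p) (Fin q) R) = vecd v + vecd w := rfl
    simp only [this, dd_add_dir, Pi.add_apply, Matrix.add_apply]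
  map_smul' c v := by
    funext x
    have : (vecd (c • v) : Fin n → Matrix (Fin p) (Fin q) R) = c • vecd v := rfl
    simp only [this, dd_smul_dir, Pi.smul_apply, Matrix.smul_apply, RingHom.id_apply]

/-- its matrix -/
noncomputable def JJ (X : Fin n → Matrix (Fin p) (Fin p) R) (Y : Fin n → Matrix (Fin q) (Fin q) R)
    (g : Fin n → FA K n) : Matrix (Fin n × Fin p × Fin q) (Fin n × Fin p × Fin q) R :=
  LinearMap.toMatrix' (TT X Y g)

theorem JJ_apply (X : Fin n → Matrix (Fin p) (Fin p) R) (Y : Fin n → Matrix (Fin q) (Fin q) R)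
    (g : Fin n → FA K n) (x y : Fin n × Fin p × Fin q) :
    JJ X Y g x y = dd X Y (vecd (Pi.single y 1)) (g x.1) x.2.1 x.2.2 := by
  rw [JJ, LinearMap.toMatrix'_apply]
  simp only [TT, LinearMap.coe_mk, AddHom.coe_mk]

theorem JJ_map (φ : R →ₐ[K] R') (X : Fin n → Matrix (Fin p) (Fin p) R)
    (Y : Fin n → Matrix (Fin q) (Fin q) R) (g : Fin n → FA K n) :
    (JJ X Y g).map φ = JJ (fun k => (X k).map φ) (fun k => (Y k).map φ) g := by
  ext x y
  rw [Matrix.map_apply, JJ_apply, JJ_apply, ← Matrix.map_apply (f := φ), dd_map]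
  have : (fun k => ((vecd (Pi.single y 1) : Fin n → Matrix (Fin p) (Fin q) R) k).map φ) =
      (vecd (Pi.single y 1) : Fin n → Matrix (Fin p) (Fin q) R') := by
    funext k
    ext a b
    simp only [vecd, Matrix.map_apply, Matrix.of_apply, Pi.single_apply]
    split_ifs <;> simp
  rw [this]

theorem evB_comp (X : Fin n → Matrix (Fin p) (Fin p) R) (Y : Fin n → Matrix (Fin q) (Fin q) R)
    (δ : Fin n → Matrix (Fin p) (Fin q) R) (α : FA K n →ₐ[K] FA K n) (b : FA K n) :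
    dd X Y δ (α b) = dd (fun k => ev X (α (FreeAlgebra.ι K k)))
      (fun k => ev Y (α (FreeAlgebra.ι K k))) (fun k => dd X Y δ (α (FreeAlgebra.ι K k))) b := by
  have h : (evB X Y δ).comp α = evB (fun k => ev X (α (FreeAlgebra.ι K k)))
      (fun k => ev Y (α (FreeAlgebra.ι K k))) (fun k => dd X Y δ (α (FreeAlgebra.ι K k))) := by
    apply FreeAlgebra.hom_ext
    funext k
    simp only [Function.comp_apply, AlgHom.comp_apply]
    rw [evB_blocks]
    simp [evB]
  have h2 := congrArg (fun ψ : FA K n →ₐ[K] _ => (ψ b).toBlocks₁₂) h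
  exact h2

theorem TT_comp (X : Fin n → Matrix (Fin p) (Fin p) R) (Y : Fin n → Matrix (Fin q) (Fin q) R)
    (α β : FA K n →ₐ[K] FA K n) (hαβ : ∀ a, α (β a) = a) :
    (TT (fun k => ev X (α (FreeAlgebra.ι K k))) (fun k => ev Y (α (FreeAlgebra.ι K k)))
      (fun j => β (FreeAlgebra.ι K j))).comp (TT X Y (fun j => α (FreeAlgebra.ι K j))) =
      LinearMap.id := by
  apply LinearMap.ext
  intro v
  funext x
  rw [LinearMap.comp_apply, LinearMap.id_apply]
  have h1 : vecd (TT X Y (fun j => α (FreeAlgebra.ι K j)) v) =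
      fun k => dd X Y (vecd v) (α (FreeAlgebra.ι K k)) := rfl
  change dd _ _ (vecd (TT X Y (fun j => α (FreeAlgebra.ι K j)) v)) (β (FreeAlgebra.ι K x.1))
    x.2.1 x.2.2 = v x
  rw [h1, ← evB_comp, hαβ, dd_ι]
  rfl

theorem JJ_unit (X : Fin n → Matrix (Fin p) (Fin p) R) (Y : Fin n → Matrix (Fin q) (Fin q) R)
    (α : FA K n ≃ₐ[K] FA K n) : IsUnit (JJ X Y (fun j => α (FreeAlgebra.ι K j))).det := by
  have h := TT_comp X Y (α : FA K n →ₐ[K] FA K n) (α.symm : FA K n →ₐ[K] FA K n)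
    (fun a => α.apply_symm_apply a)
  have h2 := congrArg LinearMap.toMatrix' h
  rw [LinearMap.toMatrix'_comp, LinearMap.toMatrix'_id] at h2
  have h3 := congrArg Matrix.det h2
  rw [Matrix.det_mul, Matrix.det_one] at h3
  exact IsUnit.of_mul_eq_one _ (by rw [mul_comm]; exact h3)

/-- vanishing to order `m` -/
def PP (X : Fin n → Matrix (Fin p) (Fin p) R) (Y : Fin n → Matrix (Fin q) (Fin q) R) (t : R)
    (m : ℕ) (a : FA K n) : Prop :=
  (∃ E, ev X a = t ^ m • E) ∧ (∃ E, ev Y a = t ^ m • E) ∧ ∀ δ, ∃ E, dd X Y δ a = t ^ (m - 1) • E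

theorem PP_mul {X : Fin n → Matrix (Fin p) (Fin p) R} {Y : Fin n → Matrix (Fin q) (Fin q) R}
    {t : R} {m l : ℕ} (hm : 1 ≤ m) (hl : 1 ≤ l) {a b : FA K n} (ha : PP X Y t m a)
    (hb : PP X Y t l b) : PP X Y t (m + l) (a * b) := by
  obtain ⟨⟨E1, h1⟩, ⟨E2, h2⟩, h3⟩ := ha
  obtain ⟨⟨E1', h1'⟩, ⟨E2', h2'⟩, h3'⟩ := hb
  refine ⟨⟨E1 * E1', ?_⟩, ⟨E2 * E2', ?_⟩, ?_⟩
  · rw [map_mul, h1, h1', Matrix.smul_mul, Matrix.mul_smul, smul_smul, pow_add]
  · rw [map_mul, h2, h2', Matrix.smul_mul, Matrix.mul_smul, smul_smul, pow_add]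
  · intro δ
    obtain ⟨E3, h3⟩ := h3 δ
    obtain ⟨E3', h3'⟩ := h3' δ
    refine ⟨E1 * E3' + E3 * E2', ?_⟩
    rw [dd_mul, h1, h2', h3, h3', Matrix.smul_mul, Matrix.mul_smul, Matrix.smul_mul,
      Matrix.mul_smul, smul_smul, smul_smul, smul_add, ← pow_add, ← pow_add]
    congr 2
    · congr 1; omega
    · congr 1; omega

theorem PP_xw {X : Fin n → Matrix (Fin p) (Fin p) R} {Y : Fin n → Matrix (Fin q) (Fin q) R}
    {t : R} (γ : FA K n →ₐ[K] FA K n) (hγ : ∀ k, PP X Y t 1 (γ (FreeAlgebra.ι K k)))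
    (w : List (Fin n)) : ∀ k, PP X Y t (w.length + 1) (γ (xw (k :: w))) := by
  induction w with
  | nil => intro k; simpa using hγ k
  | cons l w ih =>
    intro k
    rw [xw_cons, map_mul, List.length_cons, add_comm]
    exact PP_mul le_rfl (by omega) (hγ k) (ih l)

theorem dd_close {X : Fin n → Matrix (Fin p) (Fin p) R} {Y : Fin n → Matrix (Fin q) (Fin q) R}
    {t : R} (γ : FA K n →ₐ[K] FA K n) (hγ : ∀ k, PP X Y t 1 (γ (FreeAlgebra.ι K k))) {m : ℕ}
    (hm : 1 ≤ m) (δ : Fin n → Matrix (Fin p) (Fin q) R) {a : FA K n}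
    (ha : a ∈ Submodule.span K {b | ∃ w : List (Fin n), m ≤ w.length ∧ b = γ (xw w)}) :
    ∃ E, dd X Y δ a = t ^ (m - 1) • E := by
  induction ha using Submodule.span_induction with
  | mem x hx =>
    obtain ⟨w, hw, rfl⟩ := hx
    rcases w with _ | ⟨k, w⟩
    · simp at hw; omega
    obtain ⟨E, hE⟩ := (PP_xw γ hγ w k).2.2 δ
    refine ⟨t ^ (w.length + 1 - 1 - (m - 1)) • E, ?_⟩
    rw [hE, smul_smul, ← pow_add]
    congr 2
    simp at hw
    omega
  | zero =>
    refine ⟨0, ?_⟩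
    have := map_zero (ddL (K := K) X Y δ)
    rw [smul_zero]
    exact this
  | add x y _ _ hx hy =>
    obtain ⟨E1, h1⟩ := hx
    obtain ⟨E2, h2⟩ := hy
    exact ⟨E1 + E2, by rw [dd_add, h1, h2, smul_add]⟩
  | smul c x _ hx =>
    obtain ⟨E1, h1⟩ := hx
    exact ⟨c • E1, by rw [dd_smul, h1, smul_comm]⟩

/-- evaluation at a point -/
noncomputable def evc (c : Fin n → K) : FA K n →ₐ[K] K := FreeAlgebra.lift K c

theorem ev_sub_evc {X : Fin n → Matrix (Fin p) (Fin p) R} {t : R} {c : Fin n → K}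
    (hX : ∀ k, ∃ E, X k = algebraMap K (Matrix (Fin p) (Fin p) R) (c k) + t • E) (a : FA K n) :
    ∃ E, ev X a = algebraMap K (Matrix (Fin p) (Fin p) R) (evc c a) + t • E := by
  induction a using FreeAlgebra.induction with
  | grade0 r => exact ⟨0, by simp⟩
  | grade1 k =>
    obtain ⟨E, hE⟩ := hX k
    exact ⟨E, by rw [ev_ι, hE]; simp [evc]⟩
  | mul a b ha hb =>
    obtain ⟨E1, h1⟩ := ha
    obtain ⟨E2, h2⟩ := hb
    refine ⟨algebraMap K (Matrix (Fin p) (Fin p) R) (evc c a) * E2 + E1 * ev X b, ?_⟩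
    rw [map_mul, map_mul, map_mul]
    conv_lhs => rw [h1]
    rw [add_mul, smul_mul_assoc, smul_add, ← add_assoc]
    congr 1
    rw [h2, mul_add, mul_smul_comm]
  | add a b ha hb =>
    obtain ⟨E1, h1⟩ := ha
    obtain ⟨E2, h2⟩ := hb
    refine ⟨E1 + E2, ?_⟩
    rw [map_add, map_add, map_add, h1, h2, smul_add]
    abel

theorem PP_one {X : Fin n → Matrix (Fin p) (Fin p) R} {Y : Fin n → Matrix (Fin q) (Fin q) R}
    {t : R} {c : Fin n → K}
    (hX : ∀ k, ∃ E, X k = algebraMap K (Matrix (Fin p) (Fin p) R) (c k) + t • E)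
    (hY : ∀ k, ∃ E, Y k = algebraMap K (Matrix (Fin q) (Fin q) R) (c k) + t • E)
    {a : FA K n} (ha : evc c a = 0) : PP X Y t 1 a := by
  obtain ⟨E1, h1⟩ := ev_sub_evc hX a
  obtain ⟨E2, h2⟩ := ev_sub_evc hY a
  refine ⟨⟨E1, ?_⟩, ⟨E2, ?_⟩, ?_⟩
  · rw [h1, ha, map_zero, zero_add, pow_one]
  · rw [h2, ha, map_zero, zero_add, pow_one]
  · intro δ
    exact ⟨dd X Y δ a, by simp⟩

theorem det_close {X : Fin n → Matrix (Fin p) (Fin p) R} {Y : Fin n → Matrix (Fin q) (Fin q) R}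
    {t : R} {c : Fin n → K}
    (hX : ∀ k, ∃ E, X k = algebraMap K (Matrix (Fin p) (Fin p) R) (c k) + t • E)
    (hY : ∀ k, ∃ E, Y k = algebraMap K (Matrix (Fin q) (Fin q) R) (c k) + t • E)
    (γ : FA K n →ₐ[K] FA K n) (hγ : ∀ k, evc c (γ (FreeAlgebra.ι K k)) = 0) {m : ℕ}
    (hm : 1 ≤ m) (f g : Fin n → FA K n)
    (hfg : ∀ j, f j - g j ∈
      Submodule.span K {b | ∃ w : List (Fin n), m ≤ w.length ∧ b = γ (xw w)}) :
    t ^ (m - 1) ∣ (JJ X Y f).det - (JJ X Y g).det := by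
  rw [← Ideal.mem_span_singleton, ← Ideal.Quotient.eq, RingHom.map_det, RingHom.map_det]
  congr 1
  ext x y
  simp only [RingHom.mapMatrix_apply, Matrix.map_apply]
  rw [Ideal.Quotient.eq, Ideal.mem_span_singleton, JJ_apply, JJ_apply]
  obtain ⟨E, hE⟩ := dd_close γ (fun k => PP_one hX hY (hγ k)) hm (vecd (Pi.single y 1)) (hfg x.1)
  have h1 : dd X Y (vecd (Pi.single y 1)) (f x.1) - dd X Y (vecd (Pi.single y 1)) (g x.1) =
      t ^ (m - 1) • E := by
    rw [← hE]
    exact (map_sub (ddL X Y (vecd (Pi.single y 1))) (f x.1) (g x.1)).symm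
  refine ⟨E x.2.1 x.2.2, ?_⟩
  have h2 := congrFun (congrFun h1 x.2.1) x.2.2
  simpa using h2

end comm

variable {K : Type v} [Field K] {n : ℕ}

open Polynomial in
/-- A family which is, to every order, close to an automorphism is étale. -/
theorem etale_of_close (f : Fin n → FA K n)
    (h : ∀ m : ℕ, 1 ≤ m → ∃ (α : FA K n ≃ₐ[K] FA K n) (c : Fin n → K) (γ : FA K n →ₐ[K] FA K n),
      (∀ k, evc c (γ (FreeAlgebra.ι K k)) = 0) ∧
      ∀ j, f j - α (FreeAlgebra.ι K j) ∈
        Submodule.span K {b | ∃ w : List (Fin n), m ≤ w.length ∧ b = γ (xw w)}) :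
    Etale f := by
  intro F _ _ p q X Y δ hδ
  -- the generic determinant
  let R0 := MvPolynomial (Fin n) F
  let gen : ∀ {r : ℕ}, (Fin n → Matrix (Fin r) (Fin r) F) → Fin n → Matrix (Fin r) (Fin r) R0[X] :=
    fun {r} Z k => Matrix.scalar (Fin r) (C (MvPolynomial.X k : R0)) +
      (Polynomial.X : R0[X]) • ((Z k).map (fun z => C (MvPolynomial.C z : R0)) -
        Matrix.scalar (Fin r) (C (MvPolynomial.X k : R0)))
  let spec : (Fin n → F) → ∀ {r : ℕ}, (Fin n → Matrix (Fin r) (Fin r) F) → Fin n →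
      Matrix (Fin r) (Fin r) F[X] :=
    fun c {r} Z k => Matrix.scalar (Fin r) (C (c k)) +
      (Polynomial.X : F[X]) • ((Z k).map (fun z => C z) - Matrix.scalar (Fin r) (C (c k)))
  let D := (JJ (gen X) (gen Y) f).det.natDegree
  obtain ⟨α, c, γ, hγ, hα⟩ := h (D + 2) (by omega)
  let c' : Fin n → F := fun k => algebraMap K F (c k)
  let ψ : R0[X] →ₐ[K] F[X] :=
    (Polynomial.mapAlgHom (MvPolynomial.aeval c' : R0 →ₐ[F] F)).restrictScalars K
  have hψ : ∀ P : R0[X], ψ P = P.map (MvPolynomial.aeval c' : R0 →ₐ[F] F).toRingHom := by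
    intro P
    rfl
  have hgen : ∀ {r : ℕ} (Z : Fin n → Matrix (Fin r) (Fin r) F),
      (fun k => ((gen Z) k).map ψ) = spec c' Z := by
    intro r Z
    funext k
    ext a b
    simp only [gen, spec, Matrix.map_apply, Matrix.add_apply, Matrix.smul_apply, Matrix.sub_apply,
      Matrix.scalar_apply, Matrix.diagonal_apply, smul_eq_mul, map_add, map_mul, map_sub]
    by_cases hab : a = b
    · simp [hab, hψ]
    · simp [hab, hψ]
  have hdet1 : ψ (JJ (gen X) (gen Y) f).det = (JJ (spec c' X) (spec c' Y) f).det := by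
    have h1 := JJ_map (K := K) ψ (gen X) (gen Y) f
    rw [hgen, hgen] at h1
    rw [← h1]
    exact AlgHom.map_det ψ _
  have hdeg : (JJ (spec c' X) (spec c' Y) f).det.natDegree ≤ D := by
    rw [← hdet1, hψ]
    exact Polynomial.natDegree_map_le
  have hspec : ∀ {r : ℕ} (Z : Fin n → Matrix (Fin r) (Fin r) F) k,
      ∃ E, spec c' Z k = algebraMap K (Matrix (Fin r) (Fin r) F[X]) (c k) +
        (Polynomial.X : F[X]) • E := by
    intro r Z k
    refine ⟨(Z k).map (fun z => C z) - Matrix.scalar (Fin r) (C (c' k)), ?_⟩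
    simp only [spec]
    congr 1
  have hclose := det_close (K := K) (hspec X) (hspec Y) γ hγ (m := D + 2) (by omega) f
    (fun j => α (FreeAlgebra.ι K j)) hα
  obtain ⟨u, hu, hu2⟩ := Polynomial.isUnit_iff.1 (JJ_unit (spec c' X) (spec c' Y) α)
  rw [← hu2] at hclose
  have hconst : (JJ (spec c' X) (spec c' Y) f).det - C u = 0 := by
    apply Polynomial.eq_zero_of_dvd_of_natDegree_lt hclose
    rw [Polynomial.natDegree_X_pow]
    have := Polynomial.natDegree_sub_C (p := (JJ (spec c' X) (spec c' Y) f).det) (a := u)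
    omega
  -- evaluate at `t = 1`
  let ε : F[X] →ₐ[K] F := (Polynomial.aeval (1 : F)).restrictScalars K
  have hε : ∀ {r : ℕ} (Z : Fin n → Matrix (Fin r) (Fin r) F),
      (fun k => ((spec c' Z) k).map ε) = Z := by
    intro r Z
    funext k
    ext a b
    simp only [spec, Matrix.map_apply, Matrix.add_apply, Matrix.smul_apply, Matrix.sub_apply,
      Matrix.scalar_apply, Matrix.diagonal_apply, smul_eq_mul, map_add, map_mul, map_sub]
    by_cases hab : a = b
    · simp [hab, ε]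
    · simp [hab, ε]
  have hdet2 : ε (JJ (spec c' X) (spec c' Y) f).det = (JJ X Y f).det := by
    have h1 := JJ_map (K := K) ε (spec c' X) (spec c' Y) f
    rw [hε, hε] at h1
    rw [← h1]
    exact AlgHom.map_det ε _
  have hne : (JJ X Y f).det ≠ 0 := by
    rw [← hdet2, sub_eq_zero.1 hconst]
    have : ε (C u) = u := by simp [ε]
    rw [this]
    exact hu.ne_zero
  -- conclude
  by_contra hδ0
  apply hne
  rw [← Matrix.exists_mulVec_eq_zero_iff]
  refine ⟨fun x => δ x.1 x.2.1 x.2.2, ?_, ?_⟩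
  · intro h0
    apply hδ0
    funext k
    ext a b
    exact congrFun h0 (k, a, b)
  · rw [JJ, LinearMap.toMatrix'_mulVec]
    funext x
    have h1 : (vecd (fun x : Fin n × Fin p × Fin q => δ x.1 x.2.1 x.2.2) :
      Fin n → Matrix (Fin p) (Fin q) F) = δ := rfl
    change dd X Y (vecd (fun x : Fin n × Fin p × Fin q => δ x.1 x.2.1 x.2.2)) (f x.1)
      x.2.1 x.2.2 = 0
    rw [h1, hδ]
    rfl

end TH731.GE
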