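import Pool.Agent.TH731.GE.Pencil

/-!
# Linearisation: families with invertible differentials at all tuples of matrices
-/

set_option linter.unusedSectionVars false

namespace TH731.GE

open Matrix FreeAlgebra

universe v

section sm

variable {K : Type*} [Field K] {ι : Type*} [Fintype ι] [DecidableEq ι]
  {V : Type*} [AddCommGroup V] [Module K V]

/-- action of a scalar matrix on a vector -/
def sm (E : Matrix ι ι K) (Ξ : ι → V) : ι → V := fun a => ∑ b, E a b • Ξ b

theorem sm_mul (E E' : Matrix ι ι K) (Ξ : ι → V) : sm (E * E') Ξ = sm E (sm E' Ξ) := by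
  funext a
  simp only [sm, Matrix.mul_apply, Finset.sum_smul, Finset.smul_sum, mul_smul]
  rw [Finset.sum_comm]

theorem sm_one (Ξ : ι → V) : sm (1 : Matrix ι ι K) Ξ = Ξ := by
  funext a
  simp [sm, Matrix.one_apply]

theorem sm_neg (E : Matrix ι ι K) (Ξ : ι → V) : sm (-E) Ξ = -sm E Ξ := by
  funext a
  simp [sm]

theorem sm_add_vec (E : Matrix ι ι K) (Ξ Ξ' : ι → V) : sm E (Ξ + Ξ') = sm E Ξ + sm E Ξ' := by
  funext a
  simp [sm, Finset.sum_add_distrib]

theorem sm_zero_vec (E : Matrix ι ι K) : sm E (0 : ι → V) = 0 := by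
  funext a
  simp [sm]

theorem sm_sum_vec {κ : Type*} (s : Finset κ) (E : Matrix ι ι K)
    (Ξ : κ → ι → V) : sm E (∑ k ∈ s, Ξ k) = ∑ k ∈ s, sm E (Ξ k) := by
  funext a
  simp only [sm, Finset.sum_apply, Finset.smul_sum]
  rw [Finset.sum_comm]

theorem sys_equiv {n : ℕ} (Q : Matrix ι ι K) (hQ : IsUnit Q.det) (M N : Fin n → Matrix ι ι K)
    (Ξ : ι → V) (P S : Fin n → ι → V) :
    (∀ a, ∑ b, Q a b • Ξ b + ∑ k, ∑ b, M k a b • P k b + ∑ k, ∑ b, N k a b • S k b = 0) ↔
    (∀ a, Ξ a = ∑ k, ∑ b, (-(Q⁻¹ * M k)) a b • P k b + ∑ k, ∑ b, (-(Q⁻¹ * N k)) a b • S k b) := by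
  have e1 : (∀ a, ∑ b, Q a b • Ξ b + ∑ k, ∑ b, M k a b • P k b + ∑ k, ∑ b, N k a b • S k b = 0) ↔
      sm Q Ξ + ∑ k, sm (M k) (P k) + ∑ k, sm (N k) (S k) = 0 := by
    rw [funext_iff]
    simp only [sm, Pi.add_apply, Finset.sum_apply, Pi.zero_apply]
  have e2 : (∀ a, Ξ a = ∑ k, ∑ b, (-(Q⁻¹ * M k)) a b • P k b +
      ∑ k, ∑ b, (-(Q⁻¹ * N k)) a b • S k b) ↔
      Ξ = ∑ k, sm (-(Q⁻¹ * M k)) (P k) + ∑ k, sm (-(Q⁻¹ * N k)) (S k) := by
    rw [funext_iff]
    simp only [sm, Pi.add_apply, Finset.sum_apply]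
  rw [e1, e2]
  simp only [sm_neg, sm_mul, Finset.sum_neg_distrib]
  constructor
  · intro h
    have h1 := congrArg (sm Q⁻¹) h
    rw [sm_zero_vec, sm_add_vec, sm_add_vec, sm_sum_vec, sm_sum_vec, ← sm_mul,
      Matrix.nonsing_inv_mul Q hQ, sm_one] at h1
    rw [add_assoc, add_eq_zero_iff_eq_neg, neg_add] at h1
    exact h1
  · intro h
    have h1 := congrArg (sm Q) h
    rw [← sm_sum_vec, ← sm_sum_vec, ← neg_add, ← sm_add_vec] at h1
    have h2 : sm Q (-(sm Q⁻¹ (∑ k, sm (M k) (P k) + ∑ k, sm (N k) (S k)))) =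
        -(∑ k, sm (M k) (P k) + ∑ k, sm (N k) (S k)) := by
      have : (-(sm Q⁻¹ (∑ k, sm (M k) (P k) + ∑ k, sm (N k) (S k))) : ι → V) =
          sm (-Q⁻¹) (∑ k, sm (M k) (P k) + ∑ k, sm (N k) (S k)) := by rw [sm_neg]
      rw [this, ← sm_mul, Matrix.mul_neg, Matrix.mul_nonsing_inv Q hQ, sm_neg, sm_one]
    rw [h2] at h1
    rw [add_assoc, h1, neg_add_cancel]

end sm

section null'

variable {K : Type v} [Field K] {n : ℕ} {ι : Type} [Fintype ι] [DecidableEq ι]

theorem null' (Q : Matrix ι ι K) (M N : Fin n → Matrix ι ι K)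
    (hns : ∀ (F : Type v) [Field F] [Algebra K F] (p q : ℕ) (X : Fin n → Matrix (Fin p) (Fin p) F)
      (Y : Fin n → Matrix (Fin q) (Fin q) F) (Ξ : ι → Matrix (Fin p) (Fin q) F),
      (∀ a, ∑ b, Q a b • Ξ b + ∑ k, ∑ b, M k a b • (X k * Ξ b) +
        ∑ k, ∑ b, N k a b • (Ξ b * Y k) = 0) → Ξ = 0)
    {V : Type*} [AddCommGroup V] [Module K V] (L R : Fin n → Module.End K V)
    (hc : ∀ k l, Commute (L k) (R l)) (Ξ : ι → V)
    (hΞ : ∀ a, ∑ b, Q a b • Ξ b + ∑ k, ∑ b, M k a b • L k (Ξ b) +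
        ∑ k, ∑ b, N k a b • R k (Ξ b) = 0) : Ξ = 0 := by
  have hQ : IsUnit Q.det := by
    rw [isUnit_iff_ne_zero]
    intro hdet
    obtain ⟨v, hv, hv0⟩ := Matrix.exists_mulVec_eq_zero_iff.2 hdet
    apply hv
    have h1 := hns K 1 1 (fun _ => 0) (fun _ => 0) (fun a => Matrix.of fun _ _ => v a) (by
      intro a
      simp only [Matrix.zero_mul, Matrix.mul_zero, smul_zero, Finset.sum_const_zero, add_zero]
      ext i j
      have h2 := congrFun hv0 a
      rw [Matrix.sum_apply]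
      simpa [Matrix.mulVec, dotProduct] using h2)
    funext a
    have h2 := congrFun (congrFun (congrFun h1 a) 0) 0
    simpa using h2
  refine null (M := fun k => -(Q⁻¹ * M k)) (N := fun k => -(Q⁻¹ * N k)) ?_ L R hc Ξ ?_
  · intro F _ _ p q X Y Ξ h
    apply hns F p q X Y Ξ
    exact (sys_equiv Q hQ M N Ξ (fun k b => X k * Ξ b) (fun k b => Ξ b * Y k)).2 h
  · exact (sys_equiv Q hQ M N Ξ (fun k b => L k (Ξ b)) (fun k b => R k (Ξ b))).1 hΞ

end null'

section diff

variable {K : Type*} [Field K] {n : ℕ} {F : Type*} [CommRing F] [Algebra K F]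

/-- evaluation at a tuple of matrices -/
noncomputable def ev {p : ℕ} (X : Fin n → Matrix (Fin p) (Fin p) F) :
    FA K n →ₐ[K] Matrix (Fin p) (Fin p) F := FreeAlgebra.lift K X

/-- evaluation at a tuple of block triangular matrices -/
noncomputable def evB {p q : ℕ} (X : Fin n → Matrix (Fin p) (Fin p) F)
    (Y : Fin n → Matrix (Fin q) (Fin q) F) (δ : Fin n → Matrix (Fin p) (Fin q) F) :
    FA K n →ₐ[K] Matrix (Fin p ⊕ Fin q) (Fin p ⊕ Fin q) F :=
  FreeAlgebra.lift K (fun k => Matrix.fromBlocks (X k) (δ k) 0 (Y k))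

/-- the differential of `a` at `(X,Y)` in direction `δ` -/
noncomputable def dd {p q : ℕ} (X : Fin n → Matrix (Fin p) (Fin p) F)
    (Y : Fin n → Matrix (Fin q) (Fin q) F) (δ : Fin n → Matrix (Fin p) (Fin q) F) (a : FA K n) :
    Matrix (Fin p) (Fin q) F := (evB X Y δ a).toBlocks₁₂

variable {p q : ℕ} (X : Fin n → Matrix (Fin p) (Fin p) F)
    (Y : Fin n → Matrix (Fin q) (Fin q) F) (δ : Fin n → Matrix (Fin p) (Fin q) F)

theorem evB_blocks (a : FA K n) :
    evB X Y δ a = Matrix.fromBlocks (ev X a) (dd X Y δ a) 0 (ev Y a) := by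
  have key : (evB X Y δ a).toBlocks₁₁ = ev X a ∧ (evB X Y δ a).toBlocks₂₁ = 0 ∧
      (evB X Y δ a).toBlocks₂₂ = ev Y a := by
    induction a using FreeAlgebra.induction with
    | grade0 r =>
      simp only [AlgHom.commutes]
      refine ⟨?_, ?_, ?_⟩ <;> ext i j <;>
        simp [Matrix.toBlocks₁₁, Matrix.toBlocks₂₁, Matrix.toBlocks₂₂,
          Matrix.algebraMap_matrix_apply]
    | grade1 k => simp [evB, ev]
    | mul a b ha hb =>
      simp only [map_mul]
      obtain ⟨a1, a2, a3⟩ := ha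
      obtain ⟨b1, b2, b3⟩ := hb
      rw [← Matrix.fromBlocks_toBlocks (evB X Y δ a), ← Matrix.fromBlocks_toBlocks (evB X Y δ b),
        Matrix.fromBlocks_multiply, a1, a2, a3, b1, b2, b3]
      simp
    | add a b ha hb =>
      simp only [map_add]
      obtain ⟨a1, a2, a3⟩ := ha
      obtain ⟨b1, b2, b3⟩ := hb
      rw [← Matrix.fromBlocks_toBlocks (evB X Y δ a), ← Matrix.fromBlocks_toBlocks (evB X Y δ b),
        Matrix.fromBlocks_add, a1, a2, a3, b1, b2, b3]
      simp
  conv_lhs => rw [← Matrix.fromBlocks_toBlocks (evB X Y δ a), key.1, key.2.1, key.2.2]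
  rfl

theorem dd_mul (a b : FA K n) :
    dd X Y δ (a * b) = ev X a * dd X Y δ b + dd X Y δ a * ev Y b := by
  have h1 := evB_blocks X Y δ (a * b)
  rw [map_mul, evB_blocks X Y δ a, evB_blocks X Y δ b, Matrix.fromBlocks_multiply] at h1
  exact ((Matrix.fromBlocks_inj.1 h1).2.1).symm

theorem dd_add (a b : FA K n) : dd X Y δ (a + b) = dd X Y δ a + dd X Y δ b := by
  unfold dd
  rw [map_add]
  rfl

theorem dd_smul (c : K) (a : FA K n) : dd X Y δ (c • a) = c • dd X Y δ a := by
  unfold dd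
  rw [map_smul]
  rfl

theorem dd_one : dd X Y δ (1 : FA K n) = 0 := by
  unfold dd
  rw [map_one]
  ext i j
  simp [Matrix.toBlocks₁₂]

theorem dd_ι (k : Fin n) : dd X Y δ (FreeAlgebra.ι K k) = δ k := by
  simp [dd, evB]

/-- the differential as a linear map of the polynomial -/
noncomputable def ddL : FA K n →ₗ[K] Matrix (Fin p) (Fin q) F where
  toFun := dd X Y δ
  map_add' := dd_add X Y δ
  map_smul' := dd_smul X Y δ

theorem dd_add_dir (δ' : Fin n → Matrix (Fin p) (Fin q) F) (a : FA K n) :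
    dd X Y (δ + δ') a = dd X Y δ a + dd X Y δ' a := by
  induction a using FreeAlgebra.induction with
  | grade0 r =>
    rw [Algebra.algebraMap_eq_smul_one, dd_smul, dd_smul, dd_smul, dd_one, dd_one, dd_one]
    simp
  | grade1 k => simp [dd_ι]
  | mul a b ha hb => rw [dd_mul, dd_mul, dd_mul, ha, hb, Matrix.mul_add, Matrix.add_mul]; abel
  | add a b ha hb => rw [dd_add, dd_add, dd_add, ha, hb]; abel

theorem dd_smul_dir (c : F) (a : FA K n) :
    dd X Y (c • δ) a = c • dd X Y δ a := by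
  induction a using FreeAlgebra.induction with
  | grade0 r =>
    rw [Algebra.algebraMap_eq_smul_one, dd_smul, dd_smul, dd_one, dd_one]
    simp
  | grade1 k => simp [dd_ι]
  | mul a b ha hb =>
    rw [dd_mul, dd_mul, ha, hb, Matrix.mul_smul, Matrix.smul_mul, smul_add]
  | add a b ha hb => rw [dd_add, dd_add, ha, hb, smul_add]

end diff

variable {K : Type v} [Field K] {n : ℕ}

/-- a family of elements of the free algebra whose differential is injective at all tuples of
matrices over all extension fields -/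
def Etale (f : Fin n → FA K n) : Prop :=
  ∀ (F : Type v) [Field F] [Algebra K F] (p q : ℕ) (X : Fin n → Matrix (Fin p) (Fin p) F)
    (Y : Fin n → Matrix (Fin q) (Fin q) F) (δ : Fin n → Matrix (Fin p) (Fin q) F),
    (∀ j, dd X Y δ (f j) = 0) → δ = 0

/-- words of length at most `e` -/
abbrev Wd (n e : ℕ) := {w : List (Fin n) // w.length ≤ e}

noncomputable instance (n e : ℕ) : Fintype (Wd n e) := (List.finite_length_le (Fin n) e).fintype

/-- index set of the linearised system -/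
abbrev Ix (n e : ℕ) := Wd n e ⊕ (Fin n × Wd n e)

section system

variable {e : ℕ} (c : Fin n → Wd n e → K)

/-- constant part -/
noncomputable def QQ : Matrix (Ix n e) (Ix n e) K := fun a =>
  match a with
  | Sum.inl ⟨[], h⟩ => Pi.single (Sum.inl ⟨[], h⟩) 1
  | Sum.inl ⟨k :: w, h⟩ => Pi.single (Sum.inl ⟨k :: w, h⟩) 1 -
      Pi.single (Sum.inr (k, ⟨w.reverse, by simp at h ⊢; omega⟩)) 1
  | Sum.inr (j, ⟨[], _⟩) => fun b => match b with
      | Sum.inl w => c j w
      | Sum.inr _ => 0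
  | Sum.inr (k, ⟨l :: r, h⟩) => Pi.single (Sum.inr (k, ⟨l :: r, h⟩)) 1

/-- left part -/
noncomputable def MM (K : Type*) [Field K] (n e : ℕ) (k : Fin n) : Matrix (Ix n e) (Ix n e) K :=
  fun a => match a with
  | Sum.inl ⟨k' :: w, h⟩ => if k' = k then
      -Pi.single (Sum.inl ⟨w, by simp at h; omega⟩) 1 else 0
  | _ => 0

/-- right part -/
noncomputable def NN (K : Type*) [Field K] (n e : ℕ) (l : Fin n) : Matrix (Ix n e) (Ix n e) K :=
  fun a => match a with
  | Sum.inr (k, ⟨l' :: r, h⟩) => if l' = l then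
      -Pi.single (Sum.inr (k, ⟨r, by simp at h; omega⟩)) 1 else 0
  | _ => 0

variable {V : Type*} [AddCommGroup V] [Module K V]

theorem sum_single (b0 : Ix n e) (Ξ : Ix n e → V) :
    ∑ b, (Pi.single b0 (1 : K) : Ix n e → K) b • Ξ b = Ξ b0 := by
  rw [Finset.sum_eq_single b0]
  · simp
  · intro b _ hb
    simp [Pi.single_eq_of_ne hb]
  · simp

theorem system_iff (Ξ : Ix n e → V) (P S : Fin n → Ix n e → V) :
    (∀ a, ∑ b, QQ c a b • Ξ b + ∑ k, ∑ b, MM K n e k a b • P k b +
      ∑ k, ∑ b, NN K n e k a b • S k b = 0) ↔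
    (∀ h, Ξ (Sum.inl ⟨[], h⟩) = 0) ∧
    (∀ k w h h1 h2, Ξ (Sum.inl ⟨k :: w, h⟩) =
      P k (Sum.inl ⟨w, h1⟩) + Ξ (Sum.inr (k, ⟨w.reverse, h2⟩))) ∧
    (∀ j, ∑ w, c j w • Ξ (Sum.inl w) = 0) ∧
    (∀ k l r h h1, Ξ (Sum.inr (k, ⟨l :: r, h⟩)) = S l (Sum.inr (k, ⟨r, h1⟩))) := by
  have row1 : ∀ h, (∑ b, QQ c (Sum.inl ⟨[], h⟩) b • Ξ b +
      ∑ k, ∑ b, MM K n e k (Sum.inl ⟨[], h⟩) b • P k b +
      ∑ k, ∑ b, NN K n e k (Sum.inl ⟨[], h⟩) b • S k b) = Ξ (Sum.inl ⟨[], h⟩) := by
    intro h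
    simp only [QQ, MM, NN, Pi.zero_apply, zero_smul, Finset.sum_const_zero, add_zero, sum_single]
  have row2 : ∀ k w h h1 h2, (∑ b, QQ c (Sum.inl ⟨k :: w, h⟩) b • Ξ b +
      ∑ k', ∑ b, MM K n e k' (Sum.inl ⟨k :: w, h⟩) b • P k' b +
      ∑ k', ∑ b, NN K n e k' (Sum.inl ⟨k :: w, h⟩) b • S k' b) =
      Ξ (Sum.inl ⟨k :: w, h⟩) - Ξ (Sum.inr (k, ⟨w.reverse, h2⟩)) - P k (Sum.inl ⟨w, h1⟩) := by
    intro k w h h1 h2
    simp only [QQ, MM, NN, Pi.zero_apply, zero_smul, Finset.sum_const_zero, add_zero,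
      Pi.sub_apply, sub_smul, Finset.sum_sub_distrib, sum_single]
    rw [Finset.sum_eq_single k]
    · simp only [if_true, Pi.neg_apply, neg_smul, Finset.sum_neg_distrib, sum_single]
      abel
    · intro k' _ hk'
      rw [if_neg (Ne.symm hk')]
      simp
    · simp
  have row3 : ∀ j h, (∑ b, QQ c (Sum.inr (j, ⟨[], h⟩)) b • Ξ b +
      ∑ k, ∑ b, MM K n e k (Sum.inr (j, ⟨[], h⟩)) b • P k b +
      ∑ k, ∑ b, NN K n e k (Sum.inr (j, ⟨[], h⟩)) b • S k b) =
      ∑ w, c j w • Ξ (Sum.inl w) := by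
    intro j h
    simp only [QQ, MM, NN, Pi.zero_apply, zero_smul, Finset.sum_const_zero, add_zero]
    rw [Fintype.sum_sum_type]
    simp
  have row4 : ∀ k l r h h1, (∑ b, QQ c (Sum.inr (k, ⟨l :: r, h⟩)) b • Ξ b +
      ∑ k', ∑ b, MM K n e k' (Sum.inr (k, ⟨l :: r, h⟩)) b • P k' b +
      ∑ k', ∑ b, NN K n e k' (Sum.inr (k, ⟨l :: r, h⟩)) b • S k' b) =
      Ξ (Sum.inr (k, ⟨l :: r, h⟩)) - S l (Sum.inr (k, ⟨r, h1⟩)) := by
    intro k l r h h1
    simp only [QQ, MM, NN, Pi.zero_apply, zero_smul, Finset.sum_const_zero, add_zero, sum_single]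
    rw [Finset.sum_eq_single l]
    · simp only [if_true, Pi.neg_apply, neg_smul, Finset.sum_neg_distrib, sum_single]
      abel
    · intro k' _ hk'
      rw [if_neg (Ne.symm hk')]
      simp
    · simp
  constructor
  · intro hall
    refine ⟨?_, ?_, ?_, ?_⟩
    · intro h
      rw [← row1 h]
      exact hall _
    · intro k w h h1 h2
      have h3 := hall (Sum.inl ⟨k :: w, h⟩)
      rw [row2 k w h h1 h2, sub_sub, sub_eq_zero] at h3
      rw [h3, add_comm]
    · intro j
      rw [← row3 j (by simp)]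
      exact hall _
    · intro k l r h h1
      have h3 := hall (Sum.inr (k, ⟨l :: r, h⟩))
      rw [row4 k l r h h1, sub_eq_zero] at h3
      exact h3
  · rintro ⟨h1, h2, h3, h4⟩ a
    rcases a with ⟨_ | ⟨k, w⟩, h⟩ | ⟨j, ⟨_ | ⟨l, r⟩, h⟩⟩
    · rw [row1]
      exact h1 h
    · have h5 : w.length ≤ e := by simp at h; omega
      have h6 : w.reverse.length ≤ e := by simpa using h5
      rw [row2 k w h h5 h6, h2 k w h h5 h6]
      abel
    · rw [row3]
      exact h3 j
    · have h5 : r.length ≤ e := by simp at h; omega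
      rw [row4 j l r h h5, h4 j l r h h5, sub_self]

end system

/-- Every derivation into a space with commuting left and right operators which kills the family
`f` vanishes. -/
theorem etale_null (f : Fin n → FA K n) (hf : Etale f) {V : Type*} [AddCommGroup V] [Module K V]
    (L R : Fin n → Module.End K V) (hc : ∀ k l, Commute (L k) (R l)) (D : FA K n →ₗ[K] V)
    (hD1 : D 1 = 0)
    (hD : ∀ k w, D (FreeAlgebra.ι K k * xw w) =
      L k (D (xw w)) + wprod R w.reverse (D (FreeAlgebra.ι K k)))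
    (hDf : ∀ j, D (f j) = 0) (k : Fin n) : D (FreeAlgebra.ι K k) = 0 := by
  classical
  choose c' hc' using fun j => exists_coeff (f j)
  let e : ℕ := Finset.univ.sup fun j => (c' j).support.sup List.length
  have he : ∀ j, ∀ w ∈ (c' j).support, w.length ≤ e := by
    intro j w hw
    refine le_trans ?_ (Finset.le_sup (f := fun j => (c' j).support.sup List.length)
      (Finset.mem_univ j))
    exact Finset.le_sup (f := List.length) hw
  let c : Fin n → Wd n e → K := fun j w => c' j w.1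
  have hfc : ∀ j, f j = ∑ w : Wd n e, c j w • xw w.1 := by
    intro j
    conv_lhs => rw [hc' j]
    rw [Finsupp.sum]
    symm
    have h1 : ∑ w : Wd n e, c j w • (xw w.1 : FA K n) =
        ∑ w ∈ (Finset.univ : Finset (Wd n e)).image Subtype.val, c' j w • xw w := by
      rw [Finset.sum_image]
      intro a _ b _ hab
      exact Subtype.ext hab
    rw [h1]
    symm
    apply Finset.sum_subset
    · intro w hw
      exact Finset.mem_image.2 ⟨⟨w, he j w hw⟩, Finset.mem_univ _, rfl⟩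
    · intro w _ hw
      rw [Finsupp.notMem_support_iff.1 hw, zero_smul]
  have main := null' (QQ c) (MM K n e) (NN K n e) ?_ L R hc
    (fun a => match a with
      | Sum.inl w => D (xw w.1)
      | Sum.inr (k, r) => wprod R r.1 (D (FreeAlgebra.ι K k))) ?_
  · have h1 := congrFun main (Sum.inr (k, ⟨[], by simp⟩))
    simpa using h1
  · intro F _ _ p q X Y Ξ h
    rw [system_iff c Ξ (fun k b => X k * Ξ b) (fun k b => Ξ b * Y k)] at h
    obtain ⟨h1, h2, h3, h4⟩ := h
    set δ : Fin n → Matrix (Fin p) (Fin q) F := fun k => Ξ (Sum.inr (k, ⟨[], by simp⟩)) with hδ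
    have hβ : ∀ (k : Fin n) (r : List (Fin n)) (hr : r.length ≤ e),
        Ξ (Sum.inr (k, ⟨r, hr⟩)) = δ k * ev (K := K) Y (xw r.reverse) := by
      intro k r
      induction r with
      | nil => intro hr; simp [hδ]
      | cons l r ih =>
        intro hr
        have hr' : r.length ≤ e := by simp at hr; omega
        rw [h4 k l r hr hr', ih hr', List.reverse_cons, xw_append, map_mul, Matrix.mul_assoc]
        congr 2
        simp [ev]
    have hα : ∀ (w : List (Fin n)) (hw : w.length ≤ e),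
        Ξ (Sum.inl ⟨w, hw⟩) = dd X Y δ (xw w : FA K n) := by
      intro w
      induction w with
      | nil => intro hw; rw [h1 hw, xw_nil, dd_one]
      | cons l w ih =>
        intro hw
        have hw' : w.length ≤ e := by simp at hw; omega
        have hw2 : w.reverse.length ≤ e := by simpa using hw'
        rw [h2 l w hw hw' hw2, ih hw', hβ l w.reverse hw2, List.reverse_reverse, xw_cons, dd_mul,
          dd_ι]
        congr 2
        simp [ev]
    have hzero : δ = 0 := by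
      apply hf F p q X Y δ
      intro j
      rw [hfc j, ← h3 j]
      have h5 := map_sum (ddL X Y δ) (fun w : Wd n e => c j w • (xw w.1 : FA K n)) Finset.univ
      have h6 : dd X Y δ (∑ w : Wd n e, c j w • (xw w.1 : FA K n)) =
        ddL X Y δ (∑ w : Wd n e, c j w • (xw w.1 : FA K n)) := rfl
      rw [h6, h5]
      refine Finset.sum_congr rfl fun w _ => ?_
      rw [map_smul]
      congr 1
      exact (hα w.1 w.2).symm
    funext a
    rcases a with ⟨w, hw⟩ | ⟨k, ⟨r, hr⟩⟩
    · rw [hα w hw, hzero]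
      have := dd_smul_dir X Y (0 : Fin n → Matrix (Fin p) (Fin q) F) (0 : F) (xw w : FA K n)
      rw [smul_zero, zero_smul] at this
      simpa using this
    · rw [hβ k r hr, hzero]
      simp
  · rw [system_iff c _ (fun k b => L k _) (fun k b => R k _)]
    refine ⟨?_, ?_, ?_, ?_⟩
    · intro h
      exact hD1
    · intro k w h h1 h2
      simp only [xw_cons]
      exact hD k w
    · intro j
      simp only
      have h5 := hDf j
      rw [hfc j, map_sum] at h5
      simpa using h5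
    · intro k l r h h1
      simp

end TH731.GE
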