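import Pool.Agent.TH731.GE.Jac

/-!
# Étale endomorphisms of free algebras are automorphisms
-/

set_option linter.unusedSectionVars false

namespace TH731.GE

open Matrix FreeAlgebra

universe v

variable {K : Type v} [Field K] {n : ℕ}

theorem surjective_of_etale (φ : FA K n →ₐ[K] FA K n)
    (hf : Etale (fun j => φ (FreeAlgebra.ι K j))) : Function.Surjective φ := by
  rw [← AlgHom.range_eq_top, eq_top_iff]
  have h1 : Algebra.adjoin K (Set.range fun j => φ (FreeAlgebra.ι K j)) ≤ φ.range := by
    apply Algebra.adjoin_le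
    rintro _ ⟨j, rfl⟩
    exact ⟨_, rfl⟩
  have h2 : ∀ a : FA K n, a ∈ φ.range := by
    intro a
    induction a using FreeAlgebra.induction with
    | grade0 r => exact Subalgebra.algebraMap_mem _ r
    | grade1 k => exact h1 (mem_adjoin hf k)
    | mul a b ha hb => exact Subalgebra.mul_mem _ ha hb
    | add a b ha hb => exact Subalgebra.add_mem _ ha hb
  intro a _
  exact h2 a

theorem injective_of_etale (φ : FA K n →ₐ[K] FA K n)
    (hf : Etale (fun j => φ (FreeAlgebra.ι K j))) : Function.Injective φ := by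
  rw [injective_iff_map_eq_zero]
  intro a ha
  obtain ⟨N, 𝓕, _, _, D, _, j, θ, θD, _, _, hS⟩ := exists_div (K := K) (n := n) {a}
  apply hS a (by simp)
  let em : 𝓕 →ₐ[K] AlgebraicClosure 𝓕 := IsScalarTower.toAlgHom K 𝓕 (AlgebraicClosure 𝓕)
  obtain ⟨X, hX⟩ := ev_surjective hf (AlgebraicClosure 𝓕) N
    (fun j => (θ (FreeAlgebra.ι K j)).map em)
  have h1 : (ev (K := K) X).comp φ = em.mapMatrix.comp θ := by
    apply FreeAlgebra.hom_ext
    funext j
    simpa using hX j
  have h2 := congrArg (fun g : FA K n →ₐ[K] _ => g a) h1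
  simp only [AlgHom.comp_apply, ha, map_zero] at h2
  have h3 : Function.Injective (em.mapMatrix : Matrix (Fin N) (Fin N) 𝓕 →ₐ[K] _) := by
    intro A B hAB
    ext a b
    exact em.toRingHom.injective (congrFun (congrFun hAB a) b)
  apply h3
  rw [← h2, map_zero]

/-- An endomorphism of the free algebra, all of whose differentials at pairs of tuples of
matrices are injective, is bijective. -/
theorem bijective_of_etale (φ : FA K n →ₐ[K] FA K n)
    (hf : Etale (fun j => φ (FreeAlgebra.ι K j))) : Function.Bijective φ :=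
  ⟨injective_of_etale φ hf, surjective_of_etale φ hf⟩

variable (K n) in
/-- the span of the monomials of degree at least `m` -/
def aug (m : ℕ) : Submodule K (FA K n) :=
  Submodule.span K {a | ∃ w : List (Fin n), m ≤ w.length ∧ a = xw w}

theorem aug_mul_right {m : ℕ} {a : FA K n} (ha : a ∈ aug K n m) (b : FA K n) :
    a * b ∈ aug K n m := by
  have hb : b ∈ Submodule.span K (Set.range (xw : List (Fin n) → FA K n)) := by
    rw [span_xw]; trivial
  have h := Submodule.mul_mem_mul ha hb
  rw [aug, Submodule.span_mul_span] at h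
  refine Submodule.span_mono ?_ h
  rintro _ ⟨_, ⟨w, hw, rfl⟩, _, ⟨v, rfl⟩, rfl⟩
  exact ⟨w ++ v, by simp; omega, (xw_append w v).symm⟩

theorem aug_mul_left {m : ℕ} {a : FA K n} (ha : a ∈ aug K n m) (b : FA K n) :
    b * a ∈ aug K n m := by
  have hb : b ∈ Submodule.span K (Set.range (xw : List (Fin n) → FA K n)) := by
    rw [span_xw]; trivial
  have h := Submodule.mul_mem_mul hb ha
  rw [aug, Submodule.span_mul_span] at h
  refine Submodule.span_mono ?_ h
  rintro _ ⟨_, ⟨v, rfl⟩, _, ⟨w, hw, rfl⟩, rfl⟩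
  exact ⟨v ++ w, by simp; omega, (xw_append v w).symm⟩

theorem sub_mem_aug {m : ℕ} (ψ : FA K n →ₐ[K] FA K n)
    (h : ∀ i, ψ (FreeAlgebra.ι K i) - FreeAlgebra.ι K i ∈ aug K n m) (b : FA K n) :
    ψ b - b ∈ aug K n m := by
  induction b using FreeAlgebra.induction with
  | grade0 r => rw [AlgHom.commutes, sub_self]; exact Submodule.zero_mem _
  | grade1 k => exact h k
  | mul a b ha hb =>
    have : ψ (a * b) - a * b = (ψ a - a) * ψ b + a * (ψ b - b) := by
      rw [map_mul, sub_mul, mul_sub]; abel
    rw [this]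
    exact Submodule.add_mem _ (aug_mul_right ha _) (aug_mul_left hb _)
  | add a b ha hb =>
    have : ψ (a + b) - (a + b) = (ψ a - a) + (ψ b - b) := by rw [map_add]; abel
    rw [this]
    exact Submodule.add_mem _ ha hb

/-- An endomorphism which to every order is an automorphism times an endomorphism close to the
identity (in either order of composition) is bijective. -/
theorem bijective_of_good (φ : FA K n →ₐ[K] FA K n)
    (h : ∀ m : ℕ, 1 ≤ m → ∃ (ψ : FA K n →ₐ[K] FA K n) (α : FA K n ≃ₐ[K] FA K n),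
      (φ = ψ.comp (α : FA K n →ₐ[K] FA K n) ∨ φ = (α : FA K n →ₐ[K] FA K n).comp ψ) ∧
      ∀ i, ψ (FreeAlgebra.ι K i) - FreeAlgebra.ι K i ∈ aug K n m) : Function.Bijective φ := by
  apply bijective_of_etale
  apply etale_of_close
  intro m hm
  obtain ⟨ψ, α, hφ, hψ⟩ := h m hm
  rcases hφ with rfl | rfl
  · refine ⟨α, fun _ => 0, AlgHom.id K _, fun k => by simp [evc], fun j => ?_⟩
    exact sub_mem_aug ψ hψ (α (FreeAlgebra.ι K j))
  · refine ⟨α, fun k => evc (fun _ => 0) (α.symm (FreeAlgebra.ι K k)),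
      (α : FA K n →ₐ[K] FA K n), ?_, ?_⟩
    · intro k
      have h1 : (evc fun k => evc (fun _ => 0) (α.symm (FreeAlgebra.ι K k))) =
          (evc (K := K) (n := n) (fun _ => 0)).comp (α.symm : FA K n →ₐ[K] FA K n) := by
        apply FreeAlgebra.hom_ext
        funext k
        simp [evc]
      rw [h1]
      simp [evc]
    · intro j
      have h1 : (α : FA K n →ₐ[K] FA K n).comp ψ (FreeAlgebra.ι K j) -
          α (FreeAlgebra.ι K j) = (α : FA K n →ₐ[K] FA K n).toLinearMap
            (ψ (FreeAlgebra.ι K j) - FreeAlgebra.ι K j) := by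
        simp
      rw [h1]
      have h2 := Submodule.mem_map_of_mem (f := (α : FA K n →ₐ[K] FA K n).toLinearMap) (hψ j)
      rw [aug, Submodule.map_span] at h2
      refine Submodule.span_mono ?_ h2
      rintro _ ⟨_, ⟨w, hw, rfl⟩, rfl⟩
      exact ⟨w, hw, rfl⟩

end TH731.GE
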