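import Pool.Agent.TH731.GE.Div2

/-!
# A Nullstellensatz for two-sided linear pencils over free algebras

If the pencil `1 - ∑ x_k M_k - ∑ y_k N_k` (with `x`'s commuting with `y`'s) is nonsingular at all
tuples of matrices over all extension fields, then it is injective in every pair of commuting
families of operators.
-/

set_option linter.unusedSectionVars false

namespace TH731.GE

open Matrix FreeAlgebra

universe v

section act

variable {K : Type*} [Field K] {ι : Type*} [Fintype ι] [DecidableEq ι]
  {V : Type*} [AddCommGroup V] [Module K V]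

/-- action of a matrix of operators on a vector -/
def act (E : Matrix ι ι (Module.End K V)) (Ξ : ι → V) : ι → V := fun a => ∑ b, E a b (Ξ b)

theorem act_mul (E E' : Matrix ι ι (Module.End K V)) (Ξ : ι → V) :
    act (E * E') Ξ = act E (act E' Ξ) := by
  funext a
  simp only [act, Matrix.mul_apply, LinearMap.sum_apply, map_sum, Module.End.mul_apply]
  rw [Finset.sum_comm]

theorem act_one (Ξ : ι → V) : act (1 : Matrix ι ι (Module.End K V)) Ξ = Ξ := by
  funext a
  rw [act, Finset.sum_eq_single a]
  · simp
  · intro b _ hb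
    simp [Matrix.one_apply_ne hb.symm]
  · simp

theorem act_zero (Ξ : ι → V) : act (0 : Matrix ι ι (Module.End K V)) Ξ = 0 := by
  funext a
  simp [act]

theorem act_add (E E' : Matrix ι ι (Module.End K V)) (Ξ : ι → V) :
    act (E + E') Ξ = act E Ξ + act E' Ξ := by
  funext a
  simp [act, Finset.sum_add_distrib]

theorem act_sub (E E' : Matrix ι ι (Module.End K V)) (Ξ : ι → V) :
    act (E - E') Ξ = act E Ξ - act E' Ξ := by
  funext a
  simp [act, Finset.sum_sub_distrib]

theorem act_sum {κ : Type*} (s : Finset κ) (E : κ → Matrix ι ι (Module.End K V)) (Ξ : ι → V) :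
    act (∑ k ∈ s, E k) Ξ = ∑ k ∈ s, act (E k) Ξ := by
  classical
  induction s using Finset.induction_on with
  | empty => simp [act_zero]
  | insert k s hk ih => rw [Finset.sum_insert hk, Finset.sum_insert hk, act_add, ih]

theorem act_sum_vec {κ : Type*} (s : Finset κ) (E : Matrix ι ι (Module.End K V))
    (Ξ : κ → ι → V) : act E (∑ k ∈ s, Ξ k) = ∑ k ∈ s, act E (Ξ k) := by
  funext a
  simp only [act, Finset.sum_apply, map_sum]
  rw [Finset.sum_comm]

end act

section ring

variable {R : Type*} [Ring R] {n : ℕ}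

theorem sum_pow_zero (C r : Fin n → R) (hcomm : ∀ k l, Commute (r k) (C l)) (m : ℕ) :
    ∀ E : R, (∀ k, Commute (r k) E) → (∀ u : List (Fin n), u.length = m → E * wprod C u = 0) →
      E * (∑ k, C k * r k) ^ m = 0 := by
  induction m with
  | zero =>
    intro E _ h
    simpa using h [] rfl
  | succ m ih =>
    intro E hE h
    rw [pow_succ', ← mul_assoc, Finset.mul_sum, Finset.sum_mul]
    apply Finset.sum_eq_zero
    intro k _
    have h1 : E * (C k * r k) = r k * (E * C k) := by
      rw [← mul_assoc, ((hE k).mul_right (hcomm k k)).eq]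
    rw [h1, mul_assoc, ih (E * C k) (fun l => (hE l).mul_right (hcomm l k)), mul_zero]
    intro u hu
    rw [mul_assoc, ← wprod_cons]
    exact h (k :: u) (by simp [hu])

end ring

section main

variable {K : Type v} [Field K] {n : ℕ} {ι : Type} [Fintype ι] [DecidableEq ι]
  (M N : Fin n → Matrix ι ι K)

/-- the pencil is nonsingular at all tuples of matrices over all extension fields -/
def NonSing : Prop :=
  ∀ (F : Type v) [Field F] [Algebra K F] (p q : ℕ) (X : Fin n → Matrix (Fin p) (Fin p) F)
    (Y : Fin n → Matrix (Fin q) (Fin q) F) (Ξ : ι → Matrix (Fin p) (Fin q) F),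
    (∀ a, Ξ a = ∑ k, ∑ b, M k a b • (X k * Ξ b) + ∑ k, ∑ b, N k a b • (Ξ b * Y k)) → Ξ = 0

variable {M N}

theorem left_nilpotent (h : NonSing M N) (u : List (Fin n)) (hu : u.length = Fintype.card ι) :
    wprod M u = 0 := by
  rcases nil_or M with h1 | ⟨r, Ξ, Z, h0, h1⟩
  · exact h1 u hu
  exfalso
  apply h0
  have h2 := h K r 1 (fun k => (Z k)ᵀ) (fun _ => 0) (fun a => Matrix.of fun i _ => Ξ a i) (by
    intro a
    ext i j
    simp only [Matrix.mul_zero, smul_zero, Finset.sum_const_zero, add_zero, Matrix.of_apply]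
    conv_lhs => rw [h1]
    simp only [Matrix.sum_apply, Matrix.smul_apply, Matrix.mul_apply, Matrix.transpose_apply,
      Matrix.of_apply, smul_eq_mul]
    refine Finset.sum_congr rfl fun k _ => ?_
    simp only [Finset.mul_sum, Finset.sum_mul]
    rw [Finset.sum_comm]
    refine Finset.sum_congr rfl fun b _ => Finset.sum_congr rfl fun c _ => ?_
    ring)
  ext a i
  have h3 := congrFun (congrFun (congrFun h2 a) i) 0
  simpa using h3

variable (M) in
/-- the matrix `∑ x_k M_k` over the free algebra -/
noncomputable def Mx : Matrix ι ι (FA K n) :=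
  ∑ k, (algebraMap K (FA K n)).mapMatrix (M k) * Matrix.diagonal fun _ => FreeAlgebra.ι K k

theorem Mx_apply (a b : ι) : Mx M a b = ∑ k, M k a b • FreeAlgebra.ι K k := by
  rw [Mx, Matrix.sum_apply]
  refine Finset.sum_congr rfl fun k _ => ?_
  rw [Matrix.mul_diagonal, RingHom.mapMatrix_apply, Matrix.map_apply, Algebra.smul_def]

theorem Mx_pow (h : NonSing M N) : Mx M ^ Fintype.card ι = 0 := by
  have h1 := sum_pow_zero (fun k => (algebraMap K (FA K n)).mapMatrix (M k))
    (fun k => Matrix.diagonal fun _ : ι => FreeAlgebra.ι K k) (by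
      intro k l
      ext a b
      rw [Matrix.diagonal_mul, Matrix.mul_diagonal]
      simp only [RingHom.mapMatrix_apply, Matrix.map_apply]
      exact (Algebra.commutes _ _).symm) (Fintype.card ι) 1 (fun k => Commute.one_right _) (by
      intro u hu
      rw [one_mul, ← map_wprod, left_nilpotent h u hu, map_zero])
  rwa [one_mul] at h1

variable (M) in
/-- the inverse of `1 - ∑ x_k M_k` -/
noncomputable def Gx : Matrix ι ι (FA K n) := ∑ i ∈ Finset.range (Fintype.card ι), Mx M ^ i

theorem Gx_right (h : NonSing M N) : (1 - Mx M) * Gx M = 1 := by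
  rw [Gx, mul_neg_geom_sum, Mx_pow h, sub_zero]

theorem Gx_left (h : NonSing M N) : Gx M * (1 - Mx M) = 1 := by
  rw [Gx, geom_sum_mul_neg, Mx_pow h, sub_zero]

variable (M N) in
/-- the matrices `B_k = G N_k` -/
noncomputable def Bx (k : Fin n) : Matrix ι ι (FA K n) :=
  Gx M * (algebraMap K (FA K n)).mapMatrix (N k)

section V

variable {V : Type*} [AddCommGroup V] [Module K V] (lam : FA K n →ₐ[K] Module.End K V)
  (R : Fin n → Module.End K V)

/-- matrices over the free algebra as matrices of operators -/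
noncomputable def op : Matrix ι ι (FA K n) →+* Matrix ι ι (Module.End K V) :=
  (lam : FA K n →+* Module.End K V).mapMatrix

theorem op_apply (E : Matrix ι ι (FA K n)) (a b : ι) : op lam E a b = lam (E a b) := rfl

variable (N) in
/-- the right-hand part of the system -/
def SR (Ξ : ι → V) : ι → V := fun a => ∑ k, ∑ b, N k a b • R k (Ξ b)

theorem act_Mx (Ξ : ι → V) :
    act (op lam (Mx M)) Ξ = fun a => ∑ k, ∑ b, M k a b • lam (FreeAlgebra.ι K k) (Ξ b) := by
  funext a
  simp only [act, op_apply, Mx_apply, map_sum, map_smul, LinearMap.sum_apply, LinearMap.smul_apply]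
  rw [Finset.sum_comm]

theorem sys_iff (h : NonSing M N) (Ξ : ι → V) :
    (∀ a, Ξ a = ∑ k, ∑ b, M k a b • lam (FreeAlgebra.ι K k) (Ξ b) +
      ∑ k, ∑ b, N k a b • R k (Ξ b)) ↔ Ξ = act (op lam (Gx M)) (SR N R Ξ) := by
  have e1 : (∀ a, Ξ a = ∑ k, ∑ b, M k a b • lam (FreeAlgebra.ι K k) (Ξ b) +
      ∑ k, ∑ b, N k a b • R k (Ξ b)) ↔ act (op lam (1 - Mx M)) Ξ = SR N R Ξ := by
    rw [map_sub, map_one, act_sub, act_one, act_Mx]
    constructor
    · intro h1
      funext a
      rw [Pi.sub_apply, sub_eq_iff_eq_add, h1 a, add_comm]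
      rfl
    · intro h1 a
      have h2 := congrFun h1 a
      rw [Pi.sub_apply, sub_eq_iff_eq_add] at h2
      rw [h2, add_comm]
      rfl
  rw [e1]
  constructor
  · intro h1
    rw [← h1, ← act_mul, ← map_mul, Gx_left h, map_one, act_one]
  · intro h1
    conv_lhs => rw [h1]
    rw [← act_mul, ← map_mul, Gx_right h, map_one, act_one]

theorem act_Gx_SR (Ξ : ι → V) :
    act (op lam (Gx M)) (SR N R Ξ) = ∑ k, act (op lam (Bx M N k)) (fun b => R k (Ξ b)) := by
  have h1 : SR N R Ξ = ∑ k, act (op lam ((algebraMap K (FA K n)).mapMatrix (N k)))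
      (fun b => R k (Ξ b)) := by
    funext a
    rw [Finset.sum_apply]
    simp only [SR, act, op_apply, RingHom.mapMatrix_apply, Matrix.map_apply, AlgHom.commutes,
      Module.algebraMap_end_apply]
  rw [h1, act_sum_vec]
  refine Finset.sum_congr rfl fun k _ => ?_
  rw [← act_mul, ← map_mul, Bx]

end V

/-- left multiplication by `θ a` on rectangular matrices -/
noncomputable def lamM {F : Type*} [Field F] [Algebra K F] {p : ℕ} (r : ℕ)
    (θ : FA K n →ₐ[K] Matrix (Fin p) (Fin p) F) :
    FA K n →ₐ[K] Module.End K (Matrix (Fin p) (Fin r) F) :=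
  FreeAlgebra.lift K fun k =>
    { toFun := fun m => θ (FreeAlgebra.ι K k) * m
      map_add' := fun x y => Matrix.mul_add _ _ _
      map_smul' := fun c x => by simp }

theorem lamM_apply {F : Type*} [Field F] [Algebra K F] {p : ℕ} (r : ℕ)
    (θ : FA K n →ₐ[K] Matrix (Fin p) (Fin p) F) (a : FA K n) (m : Matrix (Fin p) (Fin r) F) :
    lamM r θ a m = θ a * m := by
  induction a using FreeAlgebra.induction generalizing m with
  | grade0 c =>
    rw [AlgHom.commutes, AlgHom.commutes, Module.algebraMap_end_apply, Algebra.algebraMap_eq_smul_one,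
      Matrix.smul_mul, Matrix.one_mul]
  | grade1 j => simp [lamM]
  | mul a b ha hb => rw [map_mul, map_mul, Module.End.mul_apply, hb, ha, Matrix.mul_assoc]
  | add a b ha hb => rw [map_add, map_add, LinearMap.add_apply, ha, hb, Matrix.add_mul]

/-- right multiplication on rectangular matrices -/
def rightM {F : Type*} [Field F] [Algebra K F] (p : ℕ) {r : ℕ} (Z : Matrix (Fin r) (Fin r) F) :
    Module.End K (Matrix (Fin p) (Fin r) F) where
  toFun m := m * Z
  map_add' x y := Matrix.add_mul _ _ _
  map_smul' c x := by simp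

theorem rep_nilpotent (h : NonSing M N) {F : Type v} [Field F] [Algebra K F] {p : ℕ}
    (θ : FA K n →ₐ[K] Matrix (Fin p) (Fin p) F) (u : List (Fin n))
    (hu : u.length = Fintype.card (ι × Fin p)) :
    wprod (fun k => (θ : FA K n →+* Matrix (Fin p) (Fin p) F).mapMatrix (Bx M N k)) u = 0 := by
  have key : wprod (fun k => Matrix.compRingEquiv ι (Fin p) F
      ((θ : FA K n →+* Matrix (Fin p) (Fin p) F).mapMatrix (Bx M N k))) u = 0 := by
    rcases nil_or (fun k => Matrix.compRingEquiv ι (Fin p) F
      ((θ : FA K n →+* Matrix (Fin p) (Fin p) F).mapMatrix (Bx M N k))) with h1 | ⟨r, Ξ', Z, h0, h1⟩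
    · exact h1 u hu
    exfalso
    apply h0
    set Ξ : ι → Matrix (Fin p) (Fin r) F := fun a => Matrix.of fun i j => Ξ' (a, i) j with hΞ
    have h2 : Ξ = ∑ k, act (op (lamM r θ) (Bx M N k)) (fun b => rightM (K := K) p (Z k) (Ξ b)) := by
      funext a
      ext i j
      rw [Finset.sum_apply, Matrix.sum_apply]
      simp only [act, op_apply, lamM_apply, rightM, LinearMap.coe_mk, AddHom.coe_mk]
      have h3 : Ξ a i j = Ξ' (a, i) j := rfl
      rw [h3]
      conv_lhs => rw [h1]
      rw [Matrix.sum_apply]
      refine Finset.sum_congr rfl fun k _ => ?_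
      rw [Matrix.mul_assoc, Matrix.mul_apply, Fintype.sum_prod_type, Matrix.sum_apply]
      refine Finset.sum_congr rfl fun b _ => ?_
      rw [Matrix.mul_apply]
      refine Finset.sum_congr rfl fun c _ => ?_
      congr 1
    rw [← act_Gx_SR, ← sys_iff _ _ h] at h2
    have h4 := h F p r (fun k => θ (FreeAlgebra.ι K k)) Z Ξ (by
      intro a
      have h5 := h2 a
      simp only [lamM_apply, rightM, LinearMap.coe_mk, AddHom.coe_mk] at h5
      exact h5)
    ext ⟨a, i⟩ j
    have h5 := congrFun (congrFun (congrFun h4 a) i) j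
    simpa [hΞ] using h5
  rw [← map_wprod] at key
  exact (map_eq_zero_iff _ (Matrix.compRingEquiv ι (Fin p) F).injective).1 key

theorem Bx_nilpotent (h : NonSing M N) (u : List (Fin n)) (hu : u.length = Fintype.card ι) :
    wprod (Bx M N) u = 0 := by
  classical
  obtain ⟨p, F, _, _, D, _, j, θ, θD, hj, hjθ, hS⟩ := exists_div (K := K) (n := n)
    (Finset.univ.image fun x : ι × ι => wprod (Bx M N) u x.1 x.2)
  have hmap : ∀ w, j.mapMatrix (wprod (fun k => θD.mapMatrix (Bx M N k)) w) =
      wprod (fun k => (θ : FA K n →+* Matrix (Fin p) (Fin p) F).mapMatrix (Bx M N k)) w := by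
    intro w
    rw [map_wprod]
    congr 1
    funext k
    ext a b
    simp [hjθ]
  have hjinj : Function.Injective (j.mapMatrix : Matrix ι ι D →+* _) := by
    intro A B hAB
    ext a b
    exact hj (congrFun (congrFun hAB a) b)
  have h1 : ∀ w : List (Fin n), w.length = Fintype.card (ι × Fin p) →
      wprod (fun k => θD.mapMatrix (Bx M N k)) w = 0 := by
    intro w hw
    apply hjinj
    rw [hmap, rep_nilpotent h θ w hw, map_zero]
  have h2 := chain _ h1 u hu
  have h3 := hmap u
  rw [h2, map_zero, ← map_wprod] at h3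
  ext a b
  rw [Matrix.zero_apply]
  apply hS _ (Finset.mem_image.2 ⟨(a, b), Finset.mem_univ _, rfl⟩)
  have h4 := congrFun (congrFun h3.symm a) b
  simpa using h4

/-- The Nullstellensatz for two-sided pencils. -/
theorem null (h : NonSing M N) {V : Type*} [AddCommGroup V] [Module K V]
    (L R : Fin n → Module.End K V) (hc : ∀ k l, Commute (L k) (R l)) (Ξ : ι → V)
    (hΞ : ∀ a, Ξ a = ∑ k, ∑ b, M k a b • L k (Ξ b) + ∑ k, ∑ b, N k a b • R k (Ξ b)) :
    Ξ = 0 := by
  let lam : FA K n →ₐ[K] Module.End K V := FreeAlgebra.lift K L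
  have hlam : ∀ k, lam (FreeAlgebra.ι K k) = L k := fun k => by simp [lam]
  have hcomm : ∀ l a, Commute (R l) (lam a) := by
    intro l a
    induction a using FreeAlgebra.induction with
    | grade0 c => rw [AlgHom.commutes]; exact (Algebra.commutes c (R l)).symm
    | grade1 k => rw [hlam]; exact (hc k l).symm
    | mul a b ha hb => rw [map_mul]; exact ha.mul_right hb
    | add a b ha hb => rw [map_add]; exact ha.add_right hb
  have h1 : Ξ = act (op lam (Gx M)) (SR N R Ξ) := by
    rw [← sys_iff lam R h]
    intro a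
    simp only [hlam]
    exact hΞ a
  set BB : Matrix ι ι (Module.End K V) :=
    ∑ k, op lam (Bx M N k) * Matrix.diagonal fun _ => R k with hBB
  have h2 : Ξ = act BB Ξ := by
    rw [hBB, act_sum]
    conv_lhs => rw [h1, act_Gx_SR]
    refine Finset.sum_congr rfl fun k _ => ?_
    rw [act_mul]
    congr 1
    funext b
    rw [act, Finset.sum_eq_single b]
    · rw [Matrix.diagonal_apply_eq]
    · intro c _ hcb
      rw [Matrix.diagonal_apply_ne _ hcb.symm, LinearMap.zero_apply]
    · simp
  have h3 : ∀ m, Ξ = act (BB ^ m) Ξ := by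
    intro m
    induction m with
    | zero => rw [pow_zero, act_one]
    | succ m ih => rw [pow_succ, act_mul, ← h2]; exact ih
  have h4 : BB ^ Fintype.card ι = 0 := by
    have h5 := sum_pow_zero (fun k => op lam (Bx M N k))
      (fun k => Matrix.diagonal fun _ : ι => R k) (by
        intro k l
        ext a b
        rw [Matrix.diagonal_mul, Matrix.mul_diagonal, op_apply]
        have := (hcomm k (Bx M N l a b)).eq
        rw [this]) (Fintype.card ι) 1 (fun k => Commute.one_right _) (by
        intro w hw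
        rw [one_mul, ← map_wprod (op lam) (Bx M N) w, Bx_nilpotent h w hw, map_zero])
    rwa [one_mul] at h5
  rw [h3 (Fintype.card ι), h4, act_zero]

end main

end TH731.GE
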