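import Pool.Agent.TH731.GE.Lin

/-!
# An étale family generates the free algebra
-/

set_option linter.unusedSectionVars false

namespace TH731.GE

open Matrix FreeAlgebra TensorProduct

universe v

section ev

variable {K : Type*} [Field K] {n : ℕ} {F F' : Type*} [CommRing F] [Algebra K F] [CommRing F']
  [Algebra K F'] {p : ℕ}

@[simp] theorem ev_ι (X : Fin n → Matrix (Fin p) (Fin p) F) (k : Fin n) :
    ev (K := K) X (FreeAlgebra.ι K k) = X k := by
  simp [ev]

theorem ev_map (φ : F →ₐ[K] F') (X : Fin n → Matrix (Fin p) (Fin p) F) (a : FA K n) :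
    (ev X a).map φ = ev (fun k => (X k).map φ) a := by
  have h : (φ.mapMatrix).comp (ev (K := K) X) = ev (K := K) (fun k => (X k).map φ) := by
    apply FreeAlgebra.hom_ext
    funext k
    simp
  exact congrArg (fun ψ : FA K n →ₐ[K] _ => ψ a) h

theorem dd_sub (X Y : Fin n → Matrix (Fin p) (Fin p) F) (a : FA K n) :
    dd X Y (X - Y) a = ev X a - ev Y a := by
  induction a using FreeAlgebra.induction with
  | grade0 r =>
    rw [Algebra.algebraMap_eq_smul_one, dd_smul, dd_one, map_smul, map_smul, map_one, map_one]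
    simp
  | grade1 k => simp [dd_ι]
  | mul a b ha hb => rw [dd_mul, ha, hb, map_mul, map_mul, Matrix.mul_sub, Matrix.sub_mul]; abel
  | add a b ha hb => rw [dd_add, ha, hb, map_add, map_add]; abel

end ev

variable {K : Type v} [Field K] {n : ℕ} {f : Fin n → FA K n}

theorem ev_injective (hf : Etale f) {F : Type v} [Field F] [Algebra K F] {p : ℕ}
    (X Y : Fin n → Matrix (Fin p) (Fin p) F) (h : ∀ j, ev X (f j) = ev Y (f j)) : X = Y := by
  have h1 := hf F p p X Y (X - Y) (fun j => by rw [dd_sub, h j, sub_self])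
  exact sub_eq_zero.1 h1

theorem ev_surjective (hf : Etale f) (F : Type v) [Field F] [Algebra K F] [IsAlgClosed F] (p : ℕ)
    (Fm : Fin n → Matrix (Fin p) (Fin p) F) : ∃ X : Fin n → Matrix (Fin p) (Fin p) F,
      ∀ j, ev X (f j) = Fm j := by
  classical
  let mk : (Fin n × Fin p × Fin p → F) → Fin n → Matrix (Fin p) (Fin p) F :=
    fun v k => Matrix.of fun i j => v (k, i, j)
  let G : Fin n → Matrix (Fin p) (Fin p) (MvPolynomial (Fin n × Fin p × Fin p) F) :=
    fun k => Matrix.of fun i j => MvPolynomial.X (k, i, j)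
  let P : (Fin n × Fin p × Fin p) → MvPolynomial (Fin n × Fin p × Fin p) F :=
    fun x => ev (K := K) G (f x.1) x.2.1 x.2.2
  have hev : ∀ (v : Fin n × Fin p × Fin p → F) (x : Fin n × Fin p × Fin p),
      MvPolynomial.eval v (P x) = ev (K := K) (mk v) (f x.1) x.2.1 x.2.2 := by
    intro v x
    have h1 := ev_map (K := K) ((MvPolynomial.aeval v).restrictScalars K) G (f x.1)
    have h2 : (fun k => (G k).map ((MvPolynomial.aeval v).restrictScalars K)) = mk v := by
      funext k
      ext i j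
      simp [G, mk]
    rw [h2] at h1
    rw [← h1, Matrix.map_apply]
    simp [P]
  have hinj : Function.Injective (fun (v : Fin n × Fin p × Fin p → F) x =>
      MvPolynomial.eval v (P x)) := by
    intro v w hvw
    have h1 : mk v = mk w := by
      apply ev_injective hf
      intro j
      ext a b
      have h2 := congrFun hvw (j, a, b)
      simpa only [hev] using h2
    funext x
    have h2 := congrFun (congrFun (congrFun h1 x.1) x.2.1) x.2.2
    simpa [mk] using h2
  obtain ⟨v, hv⟩ := ax_grothendieck_univ P hinj (fun x => Fm x.1 x.2.1 x.2.2)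
  refine ⟨mk v, fun j => ?_⟩
  ext a b
  have h2 := congrFun hv (j, a, b)
  simpa only [hev] using h2

variable (f) in
/-- the relations of the tensor product over the subalgebra generated by `f` -/
def Wrel : Submodule K (FA K n ⊗[K] FA K n) :=
  Submodule.span K {ξ | ∃ (p : FA K n) (j : Fin n) (b : FA K n),
    ξ = (p * f j) ⊗ₜ[K] b - p ⊗ₜ[K] (f j * b)}

variable (f) in
/-- left multiplication operators -/
noncomputable def Lop (k : Fin n) : Module.End K ((FA K n ⊗[K] FA K n) ⧸ Wrel f) :=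
  (Wrel f).mapQ (Wrel f) (TensorProduct.map (LinearMap.mulLeft K (FreeAlgebra.ι K k)) LinearMap.id)
    (by
      rw [Wrel, Submodule.span_le]
      rintro _ ⟨p, j, b, rfl⟩
      apply Submodule.subset_span
      refine ⟨FreeAlgebra.ι K k * p, j, b, ?_⟩
      simp [mul_assoc])

variable (f) in
/-- right multiplication operators -/
noncomputable def Rop (k : Fin n) : Module.End K ((FA K n ⊗[K] FA K n) ⧸ Wrel f) :=
  (Wrel f).mapQ (Wrel f) (TensorProduct.map LinearMap.id (LinearMap.mulRight K (FreeAlgebra.ι K k)))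
    (by
      rw [Wrel, Submodule.span_le]
      rintro _ ⟨p, j, b, rfl⟩
      apply Submodule.subset_span
      refine ⟨p, j, b * FreeAlgebra.ι K k, ?_⟩
      simp [mul_assoc])

theorem Lop_mk (k : Fin n) (a b : FA K n) :
    Lop f k ((Wrel f).mkQ (a ⊗ₜ b)) = (Wrel f).mkQ ((FreeAlgebra.ι K k * a) ⊗ₜ b) := by
  simp [Lop]

theorem Rop_mk (k : Fin n) (a b : FA K n) :
    Rop f k ((Wrel f).mkQ (a ⊗ₜ b)) = (Wrel f).mkQ (a ⊗ₜ (b * FreeAlgebra.ι K k)) := by
  simp [Rop]

theorem op_commute (k l : Fin n) : Commute (Lop f k) (Rop f l) := by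
  apply LinearMap.ext
  intro ξ
  obtain ⟨ξ, rfl⟩ := (Wrel f).mkQ_surjective ξ
  simp only [Module.End.mul_apply]
  induction ξ using TensorProduct.induction_on with
  | zero => simp
  | tmul a b => rw [Rop_mk, Lop_mk, Lop_mk, Rop_mk]
  | add x y hx hy => simp only [map_add, hx, hy]

theorem wprod_Rop (w : List (Fin n)) : ∀ a b : FA K n,
    wprod (Rop f) w.reverse ((Wrel f).mkQ (a ⊗ₜ b)) = (Wrel f).mkQ (a ⊗ₜ (b * xw w)) := by
  induction w with
  | nil => intro a b; simp
  | cons l w ih =>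
    intro a b
    rw [List.reverse_cons, wprod_append, Module.End.mul_apply, wprod_cons, wprod_nil, mul_one,
      Rop_mk, ih, xw_cons, mul_assoc]

variable (f) in
/-- the universal derivation killing `f` -/
noncomputable def Dop : FA K n →ₗ[K] ((FA K n ⊗[K] FA K n) ⧸ Wrel f) :=
  (Wrel f).mkQ.comp ((TensorProduct.mk K (FA K n) (FA K n)).flip 1 -
    TensorProduct.mk K (FA K n) (FA K n) 1)

theorem Dop_apply (a : FA K n) :
    Dop f a = (Wrel f).mkQ (a ⊗ₜ 1) - (Wrel f).mkQ (1 ⊗ₜ a) := by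
  simp [Dop]

theorem mem_Wrel (hf : Etale f) (k : Fin n) :
    FreeAlgebra.ι K k ⊗ₜ[K] (1 : FA K n) - (1 : FA K n) ⊗ₜ[K] FreeAlgebra.ι K k ∈ Wrel f := by
  have h := etale_null f hf (Lop f) (Rop f) op_commute (Dop f) (by rw [Dop_apply, sub_self]) (by
    intro k w
    rw [Dop_apply, Dop_apply, Dop_apply, map_sub, map_sub, Lop_mk, Lop_mk, wprod_Rop, wprod_Rop,
      mul_one, one_mul]
    abel) (by
    intro j
    rw [Dop_apply, ← map_sub, Submodule.mkQ_apply, Submodule.Quotient.mk_eq_zero]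
    apply Submodule.subset_span
    exact ⟨1, j, 1, by simp⟩) k
  rw [Dop_apply, ← map_sub, Submodule.mkQ_apply, Submodule.Quotient.mk_eq_zero] at h
  exact h

section final

variable {F : Type v} [Field F] [Algebra K F]

/-- pairing of a linear map into row vectors with an evaluation -/
noncomputable def Phi {N : ℕ} (X : Fin n → Matrix (Fin N) (Fin N) F) (h : FA K n →ₗ[K] (Fin N → F)) :
    FA K n ⊗[K] FA K n →ₗ[K] (Fin N → F) :=
  TensorProduct.lift (LinearMap.mk₂ K (fun a b => h a ᵥ* ev X b)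
    (fun a a' b => by rw [map_add, Matrix.add_vecMul])
    (fun c a b => by rw [map_smul, Matrix.smul_vecMul])
    (fun a b b' => by rw [map_add, Matrix.vecMul_add])
    (fun c a b => by rw [map_smul, Matrix.vecMul_smul]))

theorem Phi_tmul {N : ℕ} (X : Fin n → Matrix (Fin N) (Fin N) F) (h : FA K n →ₗ[K] (Fin N → F))
    (a b : FA K n) : Phi X h (a ⊗ₜ b) = h a ᵥ* ev X b := by
  simp [Phi]

theorem exists_finset {ξ : FA K n ⊗[K] FA K n} (hξ : ξ ∈ Wrel f) :
    ∃ V0 : Set (FA K n), V0.Finite ∧ ∀ (N : ℕ) (X : Fin n → Matrix (Fin N) (Fin N) F)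
      (h : FA K n →ₗ[K] (Fin N → F)),
      (∀ v ∈ V0, ∀ j, h (v * f j) = h v ᵥ* ev X (f j)) → Phi X h ξ = 0 := by
  unfold Wrel at hξ
  induction hξ using Submodule.span_induction with
  | mem ξ hξ =>
    obtain ⟨p, j, b, rfl⟩ := hξ
    refine ⟨{p}, Set.finite_singleton _, ?_⟩
    intro N X h hh
    rw [map_sub, Phi_tmul, Phi_tmul, hh p rfl j, map_mul, Matrix.vecMul_vecMul, sub_self]
  | zero => exact ⟨∅, Set.finite_empty, fun N X h _ => map_zero _⟩
  | add x y _ _ hx hy =>
    obtain ⟨V1, h1, hx⟩ := hx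
    obtain ⟨V2, h2, hy⟩ := hy
    refine ⟨V1 ∪ V2, h1.union h2, ?_⟩
    intro N X h hh
    rw [map_add, hx N X h (fun v hv => hh v (Or.inl hv)), hy N X h (fun v hv => hh v (Or.inr hv)),
      add_zero]
  | smul c x _ hx =>
    obtain ⟨V1, h1, hx⟩ := hx
    refine ⟨V1, h1, ?_⟩
    intro N X h hh
    rw [map_smul, hx N X h hh, smul_zero]

end final

theorem mem_adjoin (hf : Etale f) (k : Fin n) :
    FreeAlgebra.ι K k ∈ Algebra.adjoin K (Set.range f) := by
  classical
  set S := Algebra.adjoin K (Set.range f) with hS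
  set Ssub : Submodule K (FA K n) := Subalgebra.toSubmodule S with hSsub
  obtain ⟨V0, hV0, hV⟩ := exists_finset (F := AlgebraicClosure K) (mem_Wrel hf k)
  let q : FA K n →ₗ[K] (FA K n ⧸ Ssub) := Ssub.mkQ
  let ρ : Fin n → (FA K n ⧸ Ssub) →ₗ[K] (FA K n ⧸ Ssub) := fun j =>
    Ssub.mapQ Ssub (LinearMap.mulRight K (f j)) (by
      intro a ha
      exact S.mul_mem ha (Algebra.subset_adjoin ⟨j, rfl⟩))
  have hρ : ∀ j a, ρ j (q a) = q (a * f j) := by
    intro j a
    rfl
  let Z1 : Submodule K (FA K n ⧸ Ssub) := Submodule.span K (q '' (insert (FreeAlgebra.ι K k) V0))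
  have : FiniteDimensional K Z1 :=
    FiniteDimensional.span_of_finite K ((hV0.insert _).image _)
  obtain ⟨π, hπ⟩ := LinearMap.exists_leftInverse_of_injective Z1.subtype Z1.ker_subtype
  have hπ' : ∀ z (hz : z ∈ Z1), π z = ⟨z, hz⟩ := by
    intro z hz
    have := congrArg (fun g => g ⟨z, hz⟩) hπ
    simpa using this
  let b := Module.finBasis K Z1
  let N := Module.finrank K Z1
  let Fj : Fin n → Z1 →ₗ[K] Z1 := fun j => π.comp ((ρ j).comp Z1.subtype)
  let Fm : Fin n → Matrix (Fin N) (Fin N) (AlgebraicClosure K) := fun j =>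
    ((LinearMap.toMatrix b b (Fj j))ᵀ).map (algebraMap K (AlgebraicClosure K))
  obtain ⟨X, hX⟩ := ev_surjective hf (AlgebraicClosure K) N Fm
  let h0 : FA K n →ₗ[K] Z1 := π.comp q
  let h : FA K n →ₗ[K] (Fin N → AlgebraicClosure K) :=
    LinearMap.pi fun i => (Algebra.linearMap K (AlgebraicClosure K)).comp
      ((b.coord i).comp h0)
  have hh : ∀ a i, h a i = algebraMap K (AlgebraicClosure K) (b.repr (h0 a) i) := by
    intro a i
    rfl
  have hcomp : ∀ v ∈ V0, ∀ j, h (v * f j) = h v ᵥ* ev X (f j) := by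
    intro v hv j
    have hvZ : q v ∈ Z1 := Submodule.subset_span ⟨v, Set.mem_insert_of_mem _ hv, rfl⟩
    have h1 : h0 (v * f j) = Fj j (h0 v) := by
      simp only [h0, Fj, LinearMap.comp_apply]
      rw [hπ' (q v) hvZ, Submodule.subtype_apply, hρ]
    funext i
    rw [hh, h1, hX j]
    have h2 := LinearMap.toMatrix_mulVec_repr b b (Fj j) (h0 v)
    rw [← h2]
    simp only [Matrix.mulVec, dotProduct, Matrix.vecMul, map_sum, map_mul, Fm, Matrix.map_apply,
      Matrix.transpose_apply, hh]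
    exact Finset.sum_congr rfl fun c _ => mul_comm _ _
  have h3 := hV N X h hcomp
  rw [map_sub, Phi_tmul, Phi_tmul, map_one, Matrix.vecMul_one] at h3
  have h4 : h 1 = 0 := by
    funext i
    rw [hh]
    have : q 1 = 0 := by
      simp only [q, Submodule.mkQ_apply, Submodule.Quotient.mk_eq_zero]
      exact S.one_mem
    simp [h0, this]
  rw [h4, Matrix.zero_vecMul, sub_zero] at h3
  have h5 : h0 (FreeAlgebra.ι K k) = 0 := by
    apply b.repr.injective
    rw [map_zero]
    ext i
    have h6 := congrFun h3 i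
    rw [hh] at h6
    have h7 : algebraMap K (AlgebraicClosure K) (b.repr (h0 (FreeAlgebra.ι K k)) i) = 0 := h6
    rw [Finsupp.zero_apply]
    exact (map_eq_zero_iff _ (algebraMap K (AlgebraicClosure K)).injective).1 h7
  have hxZ : q (FreeAlgebra.ι K k) ∈ Z1 :=
    Submodule.subset_span ⟨_, Set.mem_insert _ _, rfl⟩
  have h6 : q (FreeAlgebra.ι K k) = 0 := by
    have h7 : h0 (FreeAlgebra.ι K k) = ⟨q (FreeAlgebra.ι K k), hxZ⟩ := hπ' _ hxZ
    rw [h5] at h7
    exact (congrArg Subtype.val h7).symm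
  simp only [q, Submodule.mkQ_apply, Submodule.Quotient.mk_eq_zero] at h6
  exact h6

end TH731.GE
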